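import Mathlib
import Pool.Agent.Q215.ElusE

set_option autoImplicit false

/-!
# A monotone graph property whose edge-query game is not determined: definitions

Row MP_3d6d95_lc (the monotone version of MP_5af839_lc, solved by the same seat in
`Pool/Agent/Q215/ElusA.lean` to `ElusI.lean`).
-/

namespace Pool.Agent.Q215.Mo

open Pool.Agent.Q215.Elus

/-! ## The cactus -/

/-- the vertex at which the cycle number `k` is attached; every number occurs infinitely often -/
def hk (k : ℕ) : ℕ := (Nat.unpair k).1

/-- one direction of the adjacency of the cactus: consecutive numbers of a block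
`2 ^ k, …, 2 ^ (k + 1) - 1` with `2 ≤ k`, and the two ends of this block with `hk k` -/
def Cb (n m : ℕ) : Prop :=
  ∃ k, 2 ≤ k ∧ ((2 ^ k ≤ n ∧ m = n + 1 ∧ m < 2 ^ (k + 1)) ∨
    (n = hk k ∧ (m = 2 ^ k ∨ m + 1 = 2 ^ (k + 1))))

/-- the adjacency of the cactus -/
def C (n m : ℕ) : Prop := Cb n m ∨ Cb m n

/-- the vertices of the cycle number `k` (for `2 ≤ k`), there are `2 ^ k + 1` of them -/
def cyc (k : ℕ) : Finset ℕ := insert (hk k) (Finset.Ico (2 ^ k) (2 ^ (k + 1)))

/-- A finite nonempty set of vertices in which every vertex has two neighbours contains a whole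
cycle `cyc k` and is contained in `{0, …, 2 ^ (k + 1) - 1}`.

Proof. (1) `hk k ≤ k < 2 ^ k` (`Nat.unpair_left_le`, `Nat.lt_two_pow_self`).
(2) Neighbours: let `2 ≤ k`, `2 ^ k ≤ n < 2 ^ (k + 1)`, `m < 2 ^ (k + 1)` and `C n m`. Then
`m = n + 1`, or `m + 1 = n ∧ 2 ^ k ≤ m`, or `m = hk k ∧ (n = 2 ^ k ∨ n + 1 = 2 ^ (k + 1))`.
Indeed let `Cb n m` by the number `k'`. First alternative: `m = n + 1`, done. Second alternative:
`n = hk k' ≤ k'` and `2 ^ k' ≤ m < 2 ^ (k + 1)`, so `k' ≤ k` and `n ≤ k < 2 ^ k`, a contradiction.
Let `Cb m n` by `k'`. First alternative: `2 ^ k' ≤ m < n = m + 1 < 2 ^ (k' + 1)` with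
`2 ^ k ≤ n < 2 ^ (k + 1)` gives `k' = k` (compare powers), so `2 ^ k ≤ m`. Second alternative:
`m = hk k'` and `n = 2 ^ k'` or `n + 1 = 2 ^ (k' + 1)`, so `2 ^ k' ≤ n < 2 ^ (k' + 1)` and `k' = k`.
(3) Let `w` be the greatest element of `S`. Then `4 ≤ w`: if `w < 4` and `C w b` with `b ≤ w`, then
`Cb` would give an element `≥ 4` among `w, b` (first alternative: `4 ≤ 2 ^ k ≤` the smaller one;
second alternative: the greater one is `≥ 2 ^ k ≥ 4`, or `= 2 ^ (k + 1) - 1 ≥ 7`).
Let `k = Nat.log 2 w`, so `2 ≤ k` and `2 ^ k ≤ w < 2 ^ (k + 1)`; all elements of `S` are `≤ w`.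
The two different neighbours of `w` in `S` are, by (2) and because they are `≤ w`, the numbers
`w - 1 ≥ 2 ^ k` and `hk k`, and `w = 2 ^ k ∨ w + 1 = 2 ^ (k + 1)`; since `w - 1 ≥ 2 ^ k` we get
`w + 1 = 2 ^ (k + 1)`, `w - 1 ∈ S`, `hk k ∈ S`.
(4) If `2 ^ k < n ≤ w` and `n ∈ S` then `n - 1 ∈ S`: for `n = w` this is (3); for `n < w` the only
possible neighbours of `n` in `S` are `n + 1` and `n - 1` by (2), and there are two of them.
By descending induction `Ico (2 ^ k) (2 ^ (k + 1)) ⊆ S`. -/
def S_deg2 : Prop := ∀ S : Finset ℕ, S.Nonempty →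
  (∀ a ∈ S, ∃ b ∈ S, ∃ b' ∈ S, b ≠ b' ∧ C a b ∧ C a b') →
  ∃ k, 2 ≤ k ∧ cyc k ⊆ S ∧ ∀ a ∈ S, a < 2 ^ (k + 1)

/-- Every vertex is determined by finitely many edges outside a given finite set of pairs.

Proof. For `2 ≤ k` let `ce k` be the finite set of the pairs `(n, n + 1)` with `2 ^ k ≤ n` and
`n + 1 < 2 ^ (k + 1)`, together with `(hk k, 2 ^ k)` and `(hk k, 2 ^ (k + 1) - 1)`. All of them
satisfy `Cb`. The sets `ce k` are pairwise disjoint (the second coordinate of a pair in `ce k` lies
in `Ico (2 ^ k) (2 ^ (k + 1))`), so only finitely many of them meet the finite set `F`: indeed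
if `p ∈ ce k` then `k ≤ p.2` (as `k < 2 ^ k ≤ p.2`), so `ce k` misses `F` as soon as `k` is greater
than all second coordinates of elements of `F`. Since `hk (Nat.pair v j) = v` and
`j ≤ Nat.pair v j`, there are `k < k'`, both `≥ 2` and greater than all second coordinates
of elements of `F`, with `hk k = hk k' = v` (`k = Nat.pair v j`, `k' = Nat.pair v (k + 1)` for `j`
large, `Nat.right_le_pair`, `Nat.unpair_pair`). Let `Q = ce k ∪ ce k'`.
Let `φ` be injective with `C (φ p.1) (φ p.2)` for all `p ∈ Q`. Claim: the image `S` of `cyc k`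
under `φ` is `cyc k`, and the same for `k'`. Every vertex of `cyc k` has two different neighbours in
`cyc k` joined to it by a pair of `ce k` in one of the two directions (`2 ≤ k`, so the path
`2 ^ k, …, 2 ^ (k + 1) - 1` has at least four vertices and `hk k` is adjacent to its two ends), so
`S` satisfies the hypothesis of `S_deg2`: there is `K ≥ 2` with `cyc K ⊆ S` and all elements of `S`
less than `2 ^ (K + 1)`. The set `cyc K` has `2 ^ K + 1` elements (`hk K ≤ K < 2 ^ K`) and `S` has
`2 ^ k + 1`, so `2 ^ K ≤ 2 ^ k`, `K ≤ k`; and `2 ^ k + 1 ≤ 2 ^ (K + 1)` gives `k < K + 1`. So `K = k`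
and `cyc k ⊆ S` with equal cardinalities, `S = cyc k`.
Now `v` is in `cyc k` and in `cyc k'`, so `φ v ∈ cyc k ∩ cyc k'`. An element of the intersection is
`hk k = v = hk k'` or in both intervals (impossible, they are disjoint), or is `v` anyway. -/
def S_cycpin : Prop := ∀ (F : Set (ℕ × ℕ)), F.Finite → ∀ v : ℕ, ∃ Q : Finset (ℕ × ℕ),
  (∀ p ∈ Q, C p.1 p.2 ∧ p ∉ F) ∧
  ∀ φ : ℕ → ℕ, Function.Injective φ → (∀ p ∈ Q, C (φ p.1) (φ p.2)) → φ v = v

/-! ## The roles -/

/-- the roles of the vertices: a hub adjacent to everything, a centre, and the cactus -/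
inductive Rl : Type
  | hub : Rl
  | cen : Rl
  | c : ℕ → Rl
  deriving DecidableEq

open Rl

/-- the number of the cactus vertex whose pair with the centre is the variable pair number `i` -/
def vs (i : ℕ) : ℕ := 2 ^ (i + 2) + 3

/-- the cactus vertices that are always adjacent to the centre -/
def gr (n : ℕ) : Prop := ∃ k, 2 ≤ k ∧ (n = 2 ^ k ∨ n = 2 ^ k + 1)

/-- the pairs of roles that are always edges -/
def Amin : Rl → Rl → Prop
  | hub, cen => True
  | cen, hub => True
  | hub, c _ => True
  | c _, hub => True
  | c n, c m => C n m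
  | cen, c n => gr n
  | c n, cen => gr n
  | _, _ => False

/-- the pairs of roles that may be edges -/
def Amax (a b : Rl) : Prop :=
  Amin a b ∨ ∃ i, (a = cen ∧ b = c (vs i)) ∨ (a = c (vs i) ∧ b = cen)

/-- Every role is determined by finitely many edges outside a given finite set of pairs, even if the
images are only required to be pairs that may be edges.

Proof. (0) `Amin`, `Amax` are symmetric and irreflexive, `C` is symmetric and irreflexive
(`hk k < 2 ^ k`).
(1) `C` has no triangle: three different vertices `x, y, z`, pairwise adjacent, form a set as in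
`S_deg2` (every one has the other two as neighbours), so it contains some `cyc k` with `2 ≤ k`, which
has `2 ^ k + 1 ≥ 5 > 3` elements. Hence if `Amax a b`, `Amax b d`, `Amax a d` then one of
`a, b, d` is `hub` or `cen`.
(2) Since `F` is finite there are three numbers `k1 < k2 < k3`, all `≥ 2`, for which none of the
pairs (in the written order) `(x, c (2 ^ k)), (x, c (2 ^ k + 1)), (c (2 ^ k), c (2 ^ k + 1))`,
`x = hub` or `cen`, is in `F`. Put these `15` pairs into `Q`; they satisfy `Amin`. Let `φ` be
injective with `Amax (φ p.1) (φ p.2)` for all `p` in `Q`. Then `φ hub` is `hub` or `cen`, and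
`φ cen` is `hub` or `cen`: otherwise, for `x` one of the two, for every `j = 1, 2, 3` one
of `φ (c (2 ^ kj)), φ (c (2 ^ kj + 1))` is `hub` or `cen` by (1); these are three
different roles because `φ` is injective and the six vertices are different, but there are only two
roles `hub, cen`.
(3) So `φ` maps `{hub, cen}` onto itself (it is injective), and therefore it maps the roles `c n` to
roles `c m`: there is an injective `ψ : ℕ → ℕ` with `φ (c n) = c (ψ n)`.
(4) Choose `n` of the form `4 j + 2` with `(hub, c n) ∉ F` and put `(hub, c n)` into `Q`, and also the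
images under `(p.1, p.2) ↦ (c p.1, c p.2)` of the set given by `S_cycpin` for
`F' = {p | (c p.1, c p.2) ∈ F}` and `n`; for `a = c v` moreover those for `v`. All the pairs are in
`Amin`. On pairs `c _, c _` the relation `Amax` is `C`, so `ψ n = n` (and `ψ v = v`).
(5) If `φ hub = cen`, then `Amax cen (c n)`, so `gr n` or `n = vs i` for some `i`; but
`n % 4 = 2`, whereas `gr n` implies `n % 4 = 0` or `1` and `vs i % 4 = 3`. So `φ hub = hub` and
`φ cen = cen`. -/
def S_rolepin : Prop := ∀ (F : Set (Rl × Rl)), F.Finite → ∀ a : Rl, ∃ Q : Finset (Rl × Rl),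
  (∀ p ∈ Q, Amin p.1 p.2 ∧ p ∉ F) ∧
  ∀ φ : Rl → Rl, Function.Injective φ → (∀ p ∈ Q, Amax (φ p.1) (φ p.2)) → φ a = a

/-! ## The blocks -/

/-- the value of a block of two bits: `0` is too low, `6` is too high -/
def valA (p q : Bool) : ℕ := if p then (if q then 6 else 1) else (if q then 2 else 0)

/-- the value of a block of five bits in a cyclic arrangement: `0` is too low, `6` is too high,
`i + 1` for `{i - 1, i + 1}` and `{i - 1, i, i + 1}` -/
def valB (u : Fin 5 → Bool) : ℕ :=
  match u 4, u 3, u 2, u 1, u 0 with
  | false, false, false, false, false => 0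
  | false, false, false, false, true => 0
  | false, false, false, true, false => 0
  | false, false, false, true, true => 0
  | false, false, true, false, false => 0
  | false, false, true, false, true => 2
  | false, false, true, true, false => 0
  | false, false, true, true, true => 2
  | false, true, false, false, false => 0
  | false, true, false, false, true => 5
  | false, true, false, true, false => 3
  | false, true, false, true, true => 6
  | false, true, true, false, false => 0
  | false, true, true, false, true => 6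
  | false, true, true, true, false => 3
  | false, true, true, true, true => 6
  | true, false, false, false, false => 0
  | true, false, false, false, true => 0
  | true, false, false, true, false => 1
  | true, false, false, true, true => 1
  | true, false, true, false, false => 4
  | true, false, true, false, true => 6
  | true, false, true, true, false => 6
  | true, false, true, true, true => 6
  | true, true, false, false, false => 0
  | true, true, false, false, true => 5
  | true, true, false, true, false => 6
  | true, true, false, true, true => 6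
  | true, true, true, false, false => 4
  | true, true, true, false, true => 6
  | true, true, true, true, false => 6
  | true, true, true, true, true => 6

/-- the value number `n` of a sequence of bits: the bits `7 k, 7 k + 1` form the block number `2 k`
and the bits `7 k + 2, …, 7 k + 6` form the block number `2 k + 1` -/
def vl (x : ℕ → Bool) (n : ℕ) : ℕ :=
  if n % 2 = 0 then valA (x (7 * (n / 2))) (x (7 * (n / 2) + 1))
  else valB (fun j => x (7 * (n / 2) + 2 + j.val))

/-- the rule for sequences of values: the first value that is too low or too high decides; if there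
is none, the set `I` decides -/
def RI (I : Set (ℕ → ℕ)) (z : ℕ → ℕ) : Prop :=
  (∃ n, z n = 6 ∧ ∀ m < n, z m ≠ 0 ∧ z m ≠ 6) ∨ ((∀ n, z n ≠ 0 ∧ z n ≠ 6) ∧ z ∈ I)

/-- the order of the values -/
def le3 (a b : ℕ) : Prop := a = b ∨ a = 0 ∨ b = 6

/-! ## The property -/

/-- `π` places the roles in `G` with finitely many missing edges -/
def near (π : Rl ≃ ℕ) (G : Set Pair) : Prop :=
  {p : Rl × Rl | Amin p.1 p.2 ∧ ¬ ad G (π p.1) (π p.2)}.Finite

/-- there is an edge at a pair that must not be an edge -/
def surp (π : Rl ≃ ℕ) (G : Set Pair) : Prop := ∃ a b, ad G (π a) (π b) ∧ ¬ Amax a b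

/-- no edge is missing -/
def full (π : Rl ≃ ℕ) (G : Set Pair) : Prop := ∀ a b, Amin a b → ad G (π a) (π b)

open Classical in
/-- the variable bits -/
noncomputable def bit (π : Rl ≃ ℕ) (G : Set Pair) (i : ℕ) : Bool :=
  decide (ad G (π cen) (π (c (vs i))))

/-- the monotone property given by a set of sequences of values -/
def SI (I : Set (ℕ → ℕ)) : Set (Set Pair) :=
  {G | ∃ π : Rl ≃ ℕ, near π G ∧ (surp π G ∨ (full π G ∧ RI I (vl (bit π G))))}

end Pool.Agent.Q215.Mo
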