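import Mathlib
import Pool.Agent.Q215.Mo.Defs

set_option autoImplicit false

/-! The block of five bits: the two players in one block. -/

namespace Pool.Agent.Q215.Mo

open Pool.Agent.Q215.Elus

/-- the assignments of some of the five bits -/
abbrev St5 : Type := Fin 5 → Option Bool

/-- give the value `a` to the bit `j` -/
def up5 (st : St5) (j : Fin 5) (a : Bool) : St5 := fun i => if i = j then some a else st i

/-- complete an assignment -/
def fl5 (st : St5) : Fin 5 → Bool := fun i => (st i).getD false

/-- the value is neither too low nor too high -/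
def Mid (v : ℕ) : Prop := v ≠ 0 ∧ v ≠ 6

instance (v : ℕ) : Decidable (Mid v) := inferInstanceAs (Decidable (v ≠ 0 ∧ v ≠ 6))

/-- the adversary can keep the last question decisive; `n` bits are unassigned -/
def good5 : ℕ → St5 → Prop
  | 0, st => Mid (valB (fl5 st))
  | 1, st => ∀ j, st j = none →
      valB (fl5 (up5 st j false)) ≠ valB (fl5 (up5 st j true)) ∧
      (Mid (valB (fl5 (up5 st j false))) ∨ Mid (valB (fl5 (up5 st j true))))
  | n + 2, st => ∀ j, st j = none → ∃ a, good5 (n + 1) (up5 st j a)

instance decGood5 : ∀ n st, Decidable (good5 n st)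
  | 0, st => inferInstanceAs (Decidable (Mid (valB (fl5 st))))
  | 1, st => inferInstanceAs (Decidable (∀ j, st j = none →
      valB (fl5 (up5 st j false)) ≠ valB (fl5 (up5 st j true)) ∧
      (Mid (valB (fl5 (up5 st j false))) ∨ Mid (valB (fl5 (up5 st j true))))))
  | n + 2, st => by
      have : ∀ st, Decidable (good5 (n + 1) st) := decGood5 (n + 1)
      exact inferInstanceAs (Decidable (∀ j, st j = none → ∃ a, good5 (n + 1) (up5 st j a)))

/-- the questioner can force a value different from `c`, or an indecisive last question -/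
def fw5 : ℕ → ℕ → St5 → Prop
  | 0, c, st => valB (fl5 st) ≠ c
  | 1, c, st => ∀ j, st j = none → valB (fl5 (up5 st j false)) ≠ valB (fl5 (up5 st j true)) →
      ∀ a, valB (fl5 (up5 st j a)) ≠ c
  | n + 2, c, st => ∃ j, st j = none ∧ ∀ a, fw5 (n + 1) c (up5 st j a)

instance decFw5 : ∀ n c st, Decidable (fw5 n c st)
  | 0, c, st => inferInstanceAs (Decidable (valB (fl5 st) ≠ c))
  | 1, c, st => inferInstanceAs (Decidable (∀ j, st j = none →
      valB (fl5 (up5 st j false)) ≠ valB (fl5 (up5 st j true)) →
      ∀ a, valB (fl5 (up5 st j a)) ≠ c))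
  | n + 2, c, st => by
      have : ∀ c st, Decidable (fw5 (n + 1) c st) := decFw5 (n + 1)
      exact inferInstanceAs (Decidable (∃ j, st j = none ∧ ∀ a, fw5 (n + 1) c (up5 st j a)))

theorem good5_start : good5 5 (fun _ => none) := by decide +kernel

theorem fw5_start1 : fw5 5 1 (fun _ => none) := by decide +kernel
theorem fw5_start2 : fw5 5 2 (fun _ => none) := by decide +kernel
theorem fw5_start3 : fw5 5 3 (fun _ => none) := by decide +kernel
theorem fw5_start4 : fw5 5 4 (fun _ => none) := by decide +kernel
theorem fw5_start5 : fw5 5 5 (fun _ => none) := by decide +kernel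

theorem valB_le : ∀ u : Fin 5 → Bool, valB u ≤ 6 := by decide +kernel

theorem valB_mono : ∀ u v : Fin 5 → Bool, (∀ i, u i = true → v i = true) →
    (valB u = valB v ∨ valB u = 0 ∨ valB v = 6) := by decide +kernel

end Pool.Agent.Q215.Mo
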