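import Mathlib
import Pool.Agent.Q215.Mo.Blk

set_option autoImplicit false

/-! The states of a block in which the last question can be kept decisive. -/

namespace Pool.Agent.Q215.Mo

/-- the number of unassigned bits -/
def nn5 (st : St5) : ℕ := (Finset.univ.filter fun j => st j = none).card

/-- complete an assignment upwards -/
def fh5 (st : St5) : Fin 5 → Bool := fun i => (st i).getD true

theorem nn5_up (st : St5) (j : Fin 5) (a : Bool) (hj : st j = none) :
    nn5 (up5 st j a) + 1 = nn5 st := by
  have : (Finset.univ.filter fun i => (up5 st j a) i = none) =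
      (Finset.univ.filter fun i => st i = none).erase j := by
    ext i
    rw [Finset.mem_filter, Finset.mem_erase, Finset.mem_filter]
    by_cases h : i = j
    · simp [h, up5]
    · simp [h, up5]
  unfold nn5
  rw [this, Finset.card_erase_add_one]
  simp [hj]

/-- the adversary is still able to keep the last question decisive -/
def Good5 (st : St5) : Prop := good5 (nn5 st) st

theorem upf5 {st : St5} {j : Fin 5} {a : Bool} (h : nn5 (up5 st j a) = 0) (hj : st j = none) :
    ∀ b, nn5 (up5 st j b) = 0 := by
  intro b
  have h1 := nn5_up st j a hj
  have h2 := nn5_up st j b hj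
  omega

theorem good5_ans {st : St5} (h : Good5 st) (j : Fin 5) (hj : st j = none) :
    ∃ a, Good5 (up5 st j a) := by
  unfold Good5 at h
  have h1 : 0 < nn5 st := by
    unfold nn5
    rw [Finset.card_pos]
    exact ⟨j, by simp [hj]⟩
  obtain ⟨n, hn⟩ : ∃ n, nn5 st = n + 1 := ⟨nn5 st - 1, by omega⟩
  rw [hn] at h
  have h2 : ∀ a, nn5 (up5 st j a) = n := fun a => by
    have := nn5_up st j a hj
    omega
  cases n with
  | zero =>
    obtain ⟨_, h3⟩ := h j hj
    rcases h3 with h3 | h3
    · refine ⟨false, ?_⟩
      unfold Good5
      rw [h2]
      exact h3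
    · refine ⟨true, ?_⟩
      unfold Good5
      rw [h2]
      exact h3
  | succ n =>
    obtain ⟨a, ha⟩ := h j hj
    refine ⟨a, ?_⟩
    unfold Good5
    rw [h2]
    exact ha

theorem good5_start' : Good5 (fun _ => none) := by
  unfold Good5
  have h2 : nn5 (fun _ => none) = 5 := by simp [nn5]
  rw [h2]
  exact good5_start

/-- the property of the two extreme completions -/
def Fin5 (st : St5) : Prop :=
  valB (fl5 st) ≠ 6 ∧ valB (fh5 st) ≠ 0 ∧ ((∃ j, st j = none) → valB (fl5 st) ≠ valB (fh5 st))

theorem fl_up {st : St5} {j : Fin 5} {a : Bool} (hj : st j = none) (i : Fin 5) :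
    (fl5 st i = true → fl5 (up5 st j a) i = true) ∧
    (fl5 (up5 st j a) i = true → fh5 st i = true) := by
  unfold fl5 fh5 up5
  by_cases h : i = j
  · subst h
    rw [hj]
    simp
  · simp only [if_neg h]
    cases st i <;> simp

theorem fh_up {st : St5} {j : Fin 5} {a : Bool} (hj : st j = none) (i : Fin 5) :
    (fh5 (up5 st j a) i = true → fh5 st i = true) := by
  unfold fh5 up5
  by_cases h : i = j
  · subst h
    rw [hj]
    simp
  · simp only [if_neg h]
    exact id

theorem good5_final : ∀ n (st : St5), nn5 st = n → good5 n st → Fin5 st := by
  intro n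
  induction n with
  | zero =>
    intro st hn hg
    have h0 : ∀ j, st j ≠ none := by
      intro j hj
      have : j ∈ Finset.univ.filter fun j => st j = none := by simp [hj]
      unfold nn5 at hn
      rw [Finset.card_eq_zero.mp hn] at this
      simp at this
    have heq : fl5 st = fh5 st := by
      funext j
      unfold fl5 fh5
      cases hs : st j with
      | none => exact absurd hs (h0 j)
      | some a => rfl
    refine ⟨hg.2, ?_, ?_⟩
    · rw [← heq]
      exact hg.1
    · rintro ⟨j, hj⟩
      exact absurd hj (h0 j)
  | succ n ih =>
    intro st hn hg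
    have h1 : 0 < nn5 st := by omega
    unfold nn5 at h1
    rw [Finset.card_pos] at h1
    obtain ⟨j, hj⟩ := h1
    have hj0 : st j = none := by simpa using hj
    cases n with
    | zero =>
      obtain ⟨h2, h3⟩ := hg j hj0
      have hothers : ∀ i, i ≠ j → st i ≠ none := by
        intro i hij hi
        have h4 : nn5 (up5 st j false) = 0 := by
          have := nn5_up st j false hj0
          omega
        have : i ∈ Finset.univ.filter fun k => (up5 st j false) k = none := by
          rw [Finset.mem_filter]
          refine ⟨Finset.mem_univ _, ?_⟩
          show (if i = j then some false else st i) = none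
          rw [if_neg hij, hi]
        unfold nn5 at h4
        rw [Finset.card_eq_zero.mp h4] at this
        simp at this
      have e1 : fl5 (up5 st j false) = fl5 st := by
        funext i
        unfold fl5 up5
        by_cases h : i = j
        · subst h
          simp [hj0]
        · simp [h]
      have e2 : fl5 (up5 st j true) = fh5 st := by
        funext i
        unfold fl5 fh5 up5
        by_cases h : i = j
        · subst h
          simp [hj0]
        · simp only [if_neg h]
          cases hs : st i with
          | none => exact absurd hs (hothers i h)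
          | some a => rfl
      rw [e1, e2] at h2 h3
      have hm := valB_mono (fl5 st) (fh5 st) (fun i hi => by
        rw [← e2]
        exact (fl_up (a := true) hj0 i).1 hi)
      refine ⟨?_, ?_, fun _ => h2⟩
      · intro h6
        rcases hm with hm | hm | hm
        · exact h2 hm
        · omega
        · exact h2 (by rw [h6, hm])
      · intro h6
        rcases hm with hm | hm | hm
        · exact h2 hm
        · exact h2 (by rw [h6, hm])
        · omega
    | succ n =>
      obtain ⟨a, ha⟩ := hg j hj0
      have h2 := nn5_up st j a hj0
      obtain ⟨k1, k2, k3⟩ := ih (up5 st j a) (by omega) ha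
      have m1 := valB_mono (fl5 st) (fl5 (up5 st j a)) (fun i => (fl_up hj0 i).1)
      have m2 := valB_mono (fh5 (up5 st j a)) (fh5 st) (fh_up hj0)
      have m3 := valB_mono (fl5 (up5 st j a)) (fh5 (up5 st j a)) (fun i => by
        unfold fl5 fh5
        cases (up5 st j a) i <;> simp)
      have k4 : valB (fl5 (up5 st j a)) ≠ valB (fh5 (up5 st j a)) := by
        apply k3
        have h4 : 0 < nn5 (up5 st j a) := by omega
        unfold nn5 at h4
        rw [Finset.card_pos] at h4
        obtain ⟨i, hi⟩ := h4
        exact ⟨i, by simpa using hi⟩
      refine ⟨?_, ?_, fun _ => ?_⟩ <;> omega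

end Pool.Agent.Q215.Mo
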