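import Mathlib
import Pool.Agent.Q215.Mo.Blk

set_option autoImplicit false

/-! The property given by a set of sequences: monotonicity, invariance, uniqueness of the places. -/

namespace Pool.Agent.Q215.Mo

open Pool.Agent.Q215.Elus
open Rl

theorem vl_mono {x y : ℕ → Bool} (h : ∀ i, x i = true → y i = true) (n : ℕ) :
    le3 (vl x n) (vl y n) := by
  unfold vl le3
  by_cases hn : n % 2 = 0
  · rw [if_pos hn, if_pos hn]
    have h1 := h (7 * (n / 2))
    have h2 := h (7 * (n / 2) + 1)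
    revert h1 h2
    generalize x (7 * (n / 2)) = a
    generalize x (7 * (n / 2) + 1) = b
    generalize y (7 * (n / 2)) = a'
    generalize y (7 * (n / 2) + 1) = b'
    revert a b a' b'
    decide
  · rw [if_neg hn, if_neg hn]
    exact valB_mono _ _ fun i => h _

theorem RI_mono {I : Set (ℕ → ℕ)} {z z' : ℕ → ℕ} (h : ∀ n, le3 (z n) (z' n)) (hz : RI I z) :
    RI I z' := by
  classical
  by_cases hne : ∃ n, z n ≠ z' n
  · have h0 := Nat.find_spec hne
    have hlt : ∀ m < Nat.find hne, z m = z' m := fun m hm => by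
      have := Nat.find_min hne hm
      push Not at this
      exact this
    generalize Nat.find hne = n at h0 hlt
    have key : (z n ≠ 0) → (∀ m < n, z m ≠ 0 ∧ z m ≠ 6) → RI I z' := by
      intro hzn hm
      left
      refine ⟨n, ?_, fun m hmn => by rw [← hlt m hmn]; exact hm m hmn⟩
      rcases h n with h1 | h1 | h1
      · exact absurd h1 h0
      · exact absurd h1 hzn
      · exact h1
    rcases hz with ⟨k, hk, hkm⟩ | ⟨hm, _⟩
    · rcases Nat.lt_trichotomy n k with h1 | h1 | h1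
      · exact key (hkm n h1).1 fun m hm => hkm m (by omega)
      · subst h1
        exact key (by rw [hk]; norm_num) hkm
      · left
        exact ⟨k, by rw [← hlt k h1]; exact hk, fun m hm => by rw [← hlt m (by omega)]; exact hkm m hm⟩
    · exact key (hm n).1 fun m _ => hm m
  · push Not at hne
    have : z = z' := funext hne
    rwa [← this]

theorem ad_mono {G G' : Set Pair} (h : G ⊆ G') {u v : ℕ} (ha : ad G u v) : ad G' u v := by
  obtain ⟨k, hk⟩ := ha
  exact ⟨k, h hk⟩

theorem near_mono {π : Rl ≃ ℕ} {G G' : Set Pair} (h : G ⊆ G') (hn : near π G) : near π G' :=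
  hn.subset fun _ hp => ⟨hp.1, fun k => hp.2 (ad_mono h k)⟩

theorem surp_mono {π : Rl ≃ ℕ} {G G' : Set Pair} (h : G ⊆ G') (hn : surp π G) : surp π G' := by
  obtain ⟨a, b, h1, h2⟩ := hn
  exact ⟨a, b, ad_mono h h1, h2⟩

theorem full_mono {π : Rl ≃ ℕ} {G G' : Set Pair} (h : G ⊆ G') (hn : full π G) : full π G' :=
  fun a b hab => ad_mono h (hn a b hab)

theorem bit_iff {π : Rl ≃ ℕ} {G : Set Pair} {i : ℕ} :
    bit π G i = true ↔ ad G (π cen) (π (c (vs i))) := by
  unfold bit
  simp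

theorem bit_mono {π : Rl ≃ ℕ} {G G' : Set Pair} (h : G ⊆ G') (i : ℕ) :
    bit π G i = true → bit π G' i = true := by
  rw [bit_iff, bit_iff]
  exact ad_mono h

/-- the property is monotone -/
theorem SI_mono {I : Set (ℕ → ℕ)} {G G' : Set Pair} (h : G ⊆ G') (hG : G ∈ SI I) : G' ∈ SI I := by
  obtain ⟨π, h1, h2⟩ := hG
  refine ⟨π, near_mono h h1, ?_⟩
  rcases h2 with h2 | ⟨h2, h3⟩
  · exact Or.inl (surp_mono h h2)
  · exact Or.inr ⟨full_mono h h2, RI_mono (vl_mono (bit_mono h)) h3⟩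

/-- the property is invariant -/
theorem SI_iso {I : Set (ℕ → ℕ)} {G G' : Set Pair} (f : ℕ ≃ ℕ)
    (h : ∀ u v, ad G' (f u) (f v) ↔ ad G u v) (hG : G ∈ SI I) : G' ∈ SI I := by
  obtain ⟨π, h1, h2⟩ := hG
  have hb : bit (π.trans f) G' = bit π G := by
    funext i
    rw [Bool.eq_iff_iff, bit_iff, bit_iff]
    exact h _ _
  refine ⟨π.trans f, ?_, ?_⟩
  · have : {p : Rl × Rl | Amin p.1 p.2 ∧ ¬ ad G' ((π.trans f) p.1) ((π.trans f) p.2)} =
        {p : Rl × Rl | Amin p.1 p.2 ∧ ¬ ad G (π p.1) (π p.2)} := by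
      ext p
      simp only [Equiv.trans_apply, Set.mem_ofPred_eq, h]
    unfold near
    rw [this]
    exact h1
  · rw [hb]
    rcases h2 with ⟨a, b, h3, h4⟩ | ⟨h3, h4⟩
    · exact Or.inl ⟨a, b, (h _ _).mpr h3, h4⟩
    · exact Or.inr ⟨fun a b hab => (h _ _).mpr (h3 a b hab), h4⟩

/-- the places are unique -/
theorem place_unique (RP : S_rolepin) {π π' : Rl ≃ ℕ} {G : Set Pair} (hs : ¬ surp π G)
    (hn : near π' G) : π' = π := by
  ext a
  obtain ⟨Q, hQ1, hQ2⟩ := RP _ hn a
  have h1 := hQ2 (fun b => π.symm (π' b)) (π.symm.injective.comp π'.injective) (by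
    intro p hp
    by_contra hno
    apply hs
    refine ⟨_, _, ?_, hno⟩
    rw [Equiv.apply_symm_apply, Equiv.apply_symm_apply]
    by_contra hno2
    exact (hQ1 p hp).2 ⟨(hQ1 p hp).1, hno2⟩)
  have h2 : π (π.symm (π' a)) = π a := congrArg π h1
  rw [Equiv.apply_symm_apply] at h2
  exact h2

theorem full_near {π : Rl ≃ ℕ} {G : Set Pair} (h : full π G) : near π G := by
  unfold near
  have : {p : Rl × Rl | Amin p.1 p.2 ∧ ¬ ad G (π p.1) (π p.2)} = ∅ := by
    ext p
    simp only [Set.mem_ofPred_eq, Set.mem_empty_iff_false, iff_false, not_and, not_not]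
    exact h _ _
  rw [this]
  exact Set.finite_empty

/-- membership of graphs without surplus -/
theorem mem_SI (RP : S_rolepin) {π : Rl ≃ ℕ} {G : Set Pair} (hs : ¬ surp π G)
    (I : Set (ℕ → ℕ)) : G ∈ SI I ↔ full π G ∧ RI I (vl (bit π G)) := by
  constructor
  · rintro ⟨π', h1, h2⟩
    have := place_unique RP hs h1
    subst this
    rcases h2 with h2 | h2
    · exact absurd h2 hs
    · exact h2
  · intro h
    exact ⟨π, full_near h.1, Or.inr h⟩

/-- membership of graphs with surplus -/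
theorem surp_mem {π : Rl ≃ ℕ} {G : Set Pair} (hn : near π G) (hs : surp π G)
    (I : Set (ℕ → ℕ)) : G ∈ SI I := ⟨π, hn, Or.inl hs⟩

/-- removing one pair does not destroy `near` -/
theorem near_erase {π : Rl ≃ ℕ} {G G' : Set Pair} {q : Pair} (h : ∀ e ∈ G, e ≠ q → e ∈ G')
    (hn : near π G) : near π G' := by
  obtain ⟨u, v, huv, rfl⟩ := pr_cases q
  have hfin : Set.Finite ({p : Rl × Rl | Amin p.1 p.2 ∧ ¬ ad G (π p.1) (π p.2)} ∪
      {(π.symm u, π.symm v), (π.symm v, π.symm u)}) := hn.union (Set.toFinite _)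
  refine hfin.subset ?_
  rintro ⟨a, b⟩ ⟨h1, h2⟩
  by_cases h3 : ad G (π a) (π b)
  · right
    obtain ⟨h4, h5⟩ := h3
    by_cases h6 : pr (π a) (π b) h4 = pr u v huv
    · rw [pr_eq] at h6
      rcases h6 with ⟨rfl, rfl⟩ | ⟨rfl, rfl⟩
      · left
        simp
      · right
        simp
    · exact absurd ⟨h4, h _ h5 h6⟩ h2
  · left
    exact ⟨h1, h3⟩

end Pool.Agent.Q215.Mo
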