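import Mathlib
import Pool.Agent.Q215.Mo.Ply
import Pool.Agent.Q215.ElusF

set_option autoImplicit false

/-! The strategies of Hider: pinned roles. -/

namespace Pool.Agent.Q215.Mo

open Pool.Agent.Q215.Elus (Pair Hist hist hist_succ hist_length mem_hist TG Run Cs As chain_run
  explore pr pr_comm pr_eq pr_cases ad ad_iff WinRun HS hs_pre hs_run as_snoc finite_as hist_pre
  inf_star fin_time mem_pr)
open Rl

/-- no run against `τ` is won by Seeker for all sets of sequences of values -/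
def NW (τ : Hist → Pair → Bool) : Prop := ∀ ρ, Run τ ρ → ¬ ∀ I, WinRun (SI I) ρ

/-- the green pairs of a run -/
def Grn (ρ : ℕ → Pair × Bool) : Set Pair := {e | ∃ n, ρ n = (e, true)}

/-- the pairs that are green or white at the end of a run -/
def Upp (ρ : ℕ → Pair × Bool) : Set Pair := {e | e ∈ Grn ρ ∨ ∀ n, (ρ n).1 ≠ e}

theorem cs_le {ρ : ℕ → Pair × Bool} {G : Set Pair} (h : Cs (Set.range ρ) G) : Grn ρ ⊆ G := by
  rintro e ⟨n, hn⟩
  exact (h e true ⟨n, hn⟩).mpr rfl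

theorem cs_ge {ρ : ℕ → Pair × Bool} {G : Set Pair} (h : Cs (Set.range ρ) G) : G ⊆ Upp ρ := by
  intro e he
  by_cases hn : ∃ n, (ρ n).1 = e
  · obtain ⟨n, hn⟩ := hn
    left
    have h1 : ρ n = (e, (ρ n).2) := Prod.ext hn rfl
    have h2 := (h _ _ ⟨n, h1⟩).mp he
    exact ⟨n, by rw [h1, h2]⟩
  · push Not at hn
    exact Or.inr hn

theorem cs_grn {τ : Hist → Pair → Bool} {ρ : ℕ → Pair × Bool} (hρ : Run τ ρ) :
    Cs (Set.range ρ) (Grn ρ) := by
  rintro e c ⟨n, hn⟩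
  constructor
  · rintro ⟨m, hm⟩
    have : m = n := hρ.inj (by simp only [hm, hn])
    subst this
    rw [hn] at hm
    exact (Prod.mk.inj hm).2
  · rintro rfl
    exact ⟨n, hn⟩

theorem cs_upp {τ : Hist → Pair → Bool} {ρ : ℕ → Pair × Bool} (hρ : Run τ ρ) :
    Cs (Set.range ρ) (Upp ρ) := by
  rintro e c ⟨n, hn⟩
  constructor
  · rintro (h | h)
    · exact (cs_grn hρ e c ⟨n, hn⟩).mp h
    · exact absurd (by rw [hn]) (h n)
  · rintro rfl
    exact Or.inl ⟨n, hn⟩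

/-- winning in terms of the two extreme graphs -/
theorem win_iff {τ : Hist → Pair → Bool} {ρ : ℕ → Pair × Bool} (hρ : Run τ ρ)
    (he : ∃ e, ∀ n, (ρ n).1 ≠ e) (I : Set (ℕ → ℕ)) :
    WinRun (SI I) ρ ↔ (Grn ρ ∈ SI I ∨ Upp ρ ∉ SI I) := by
  constructor
  · rintro ⟨_, h | h⟩
    · exact Or.inl (h _ (cs_grn hρ))
    · exact Or.inr (h _ (cs_upp hρ))
  · intro h
    refine ⟨he, ?_⟩
    rcases h with h | h
    · exact Or.inl fun G hG => SI_mono (cs_le hG) h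
    · exact Or.inr fun G hG hGI => h (SI_mono (cs_ge hG) hGI)

theorem nw_get {τ : Hist → Pair → Bool} (hNW : NW τ) {ρ : ℕ → Pair × Bool} (hρ : Run τ ρ)
    (he : ∃ e, ∀ n, (ρ n).1 ≠ e) : ∃ I, Upp ρ ∈ SI I ∧ Grn ρ ∉ SI I := by
  have h := hNW ρ hρ
  push Not at h
  obtain ⟨I, hI⟩ := h
  rw [win_iff hρ he] at hI
  push Not at hI
  exact ⟨I, hI.2, hI.1⟩

theorem upp_eq {ρ : ℕ → Pair × Bool} {q : Pair} (hq : ∀ n, (ρ n).1 ≠ q)
    (hall : ∀ e, e ≠ q → ∃ n, (ρ n).1 = e) : Upp ρ = insert q (Grn ρ) := by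
  ext e
  constructor
  · rintro (h | h)
    · exact Or.inr h
    · left
      by_contra hne
      obtain ⟨n, hn⟩ := hall e hne
      exact h n hn
  · rintro (h | h)
    · subst h
      exact Or.inr hq
    · exact Or.inl h

/-- the outcome of a run in which exactly one pair remains white -/
theorem nw_all {τ : Hist → Pair → Bool} (hNW : NW τ) {ρ : ℕ → Pair × Bool} (hρ : Run τ ρ)
    {q : Pair} (hq : ∀ n, (ρ n).1 ≠ q) (hall : ∀ e, e ≠ q → ∃ n, (ρ n).1 = e) :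
    ∃ (I : Set (ℕ → ℕ)) (π : Rl ≃ ℕ), near π (Grn ρ) ∧ ¬ surp π (Grn ρ) ∧ Grn ρ ∉ SI I ∧
      (surp π (insert q (Grn ρ)) ∨
        (full π (insert q (Grn ρ)) ∧ RI I (vl (bit π (insert q (Grn ρ)))))) := by
  obtain ⟨I, h1, h2⟩ := nw_get hNW hρ ⟨q, hq⟩
  rw [upp_eq hq hall] at h1
  obtain ⟨π, h3, h4⟩ := h1
  have h5 : near π (Grn ρ) := near_erase (q := q) (fun e he hne => by
    rcases he with he | he
    · exact absurd he hne
    · exact he) h3
  exact ⟨I, π, h5, fun h => h2 (surp_mem h5 h I), h2, h4⟩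

/-- no surplus up to now -/
def Ns (π : Rl ≃ ℕ) (l : Hist) : Prop :=
  ∀ a b (h : π a ≠ π b), (pr (π a) (π b) h, true) ∈ l → Amax a b

theorem Ns.mono {π : Rl ≃ ℕ} {l l' : Hist} (h : l <+: l') (hn : Ns π l') : Ns π l :=
  fun a b hab hl => hn a b hab (h.subset hl)

theorem ns_of {π : Rl ≃ ℕ} {ρ : ℕ → Pair × Bool} (h : ¬ surp π (Grn ρ)) (n : ℕ) :
    Ns π (hist ρ n) := by
  intro a b hab hl
  by_contra hno
  apply h
  rw [mem_hist] at hl
  obtain ⟨i, _, hi⟩ := hl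
  exact ⟨a, b, ⟨hab, i, hi⟩, hno⟩

/-- the role `a` is certainly at the vertex `w` -/
def Pn (l : Hist) (a : Rl) (w : ℕ) : Prop := ∀ π : Rl ≃ ℕ, Ns π l → π a = w

theorem Pn.mono {l l' : Hist} {a : Rl} {w : ℕ} (h : Pn l a w) (hl : l <+: l') : Pn l' a w :=
  fun π hπ => h π (hπ.mono hl)

theorem ad_time {π : Rl ≃ ℕ} {ρ : ℕ → Pair × Bool} {a b : Rl} (h : ad (Grn ρ) (π a) (π b)) :
    ∃ n, ∃ hne, ρ n = (pr (π a) (π b) hne, true) := by
  obtain ⟨h1, n, hn⟩ := h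
  exact ⟨n, h1, hn⟩

theorem pin_time (RP : S_rolepin) {ρ : ℕ → Pair × Bool} {π : Rl ≃ ℕ} (hn : near π (Grn ρ))
    (a : Rl) : ∃ t, Pn (hist ρ t) a (π a) := by
  obtain ⟨Q, hQ1, hQ2⟩ := RP _ hn a
  obtain ⟨N, hN⟩ := fin_time (Q : Set (Rl × Rl)) (Finset.finite_toSet _)
    (fun p n => ∃ hne, ρ n = (pr (π p.1) (π p.2) hne, true)) (by
      intro p hp
      apply ad_time
      by_contra hno
      exact (hQ1 p hp).2 ⟨(hQ1 p hp).1, hno⟩)
  refine ⟨N, fun π' hπ' => ?_⟩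
  have h1 := hQ2 (fun b => π'.symm (π b)) (π'.symm.injective.comp π.injective) (by
    intro p hp
    obtain ⟨m, hm, hne, hm2⟩ := hN p hp
    have e1 : π' (π'.symm (π p.1)) = π p.1 := Equiv.apply_symm_apply _ _
    have e2 : π' (π'.symm (π p.2)) = π p.2 := Equiv.apply_symm_apply _ _
    apply hπ' _ _ (by rw [e1, e2]; exact hne)
    rw [mem_hist]
    refine ⟨m, hm, ?_⟩
    rw [hm2]
    congr 1
    rw [pr_eq]
    exact Or.inl ⟨e1.symm, e2.symm⟩)
  have h2 : π' (π'.symm (π a)) = π' a := congrArg π' h1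
  rw [Equiv.apply_symm_apply] at h2
  exact h2.symm

/-- data found at the beginning -/
structure Base (τ : Hist → Pair → Bool) (l0 : Hist) (x0 x1 y : ℕ) (hy : x0 ≠ y) : Prop where
  tg : TG τ l0
  na : ¬ As l0 (pr x0 y hy)
  hub : Pn l0 hub x0
  cen : Pn l0 cen x1
  ne : x0 ≠ x1
  ney : y ≠ x1

/-- the run that asks everything except one pair -/
theorem full_run (τ : Hist → Pair → Bool) (q : Pair) (l : Hist) (hl : TG τ l) (hq : ¬ As l q) :
    ∃ ρ, Run τ ρ ∧ hist ρ l.length = l ∧ (∀ n, (ρ n).1 ≠ q) ∧ ∀ e, e ≠ q → ∃ n, (ρ n).1 = e := by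
  obtain ⟨ρ, hr, hh, h1, h2⟩ := explore τ (fun _ e => e ≠ q) (fun _ _ _ _ h => h) (fun l' _ => by
    obtain ⟨w, h, hw⟩ := inf_star 0 ({e | As l' e} ∪ {q})
      ((finite_as l').union (Set.finite_singleton _))
    exact ⟨pr 0 w h, fun hc => hw (Or.inr hc), fun hc => hw (Or.inl hc)⟩) l hl
  refine ⟨ρ, hr, hh, ?_, fun e he => h2 0 e he⟩
  intro i hi
  rcases Nat.lt_or_ge i l.length with h | h
  · apply hq
    refine ⟨(ρ i).2, ?_⟩
    rw [← hh, mem_hist]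
    exact ⟨i, h, Prod.ext hi rfl⟩
  · exact h1 i h hi

theorem base_exists (RP : S_rolepin) (τ : Hist → Pair → Bool) (hNW : NW τ) :
    ∃ l0 x0 x1 y hy, Base τ l0 x0 x1 y hy := by
  obtain ⟨ρ, hr, _, h1, h2⟩ := full_run τ (pr 0 1 (by norm_num)) [] TG.nil (by
    rintro ⟨c, hc⟩
    simp at hc)
  obtain ⟨I, π, h3, h4, _, _⟩ := nw_all hNW hr h1 h2
  obtain ⟨t, ht⟩ := pin_time RP h3 hub
  obtain ⟨t', ht'⟩ := pin_time RP h3 cen
  let N := max t t'
  have hne : π hub ≠ π cen := fun h => by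
    have := π.injective h
    simp at this
  obtain ⟨y, hy, hw⟩ := inf_star (π hub) ({e | As (hist ρ N) e} ∪ {pr (π hub) (π cen) hne})
    ((finite_as _).union (Set.finite_singleton _))
  refine ⟨hist ρ N, π hub, π cen, y, hy, ⟨hr.tg N, fun h => hw (Or.inl h),
    ht.mono (hist_pre ρ (le_max_left _ _)), ht'.mono (hist_pre ρ (le_max_right _ _)), hne, ?_⟩⟩
  rintro rfl
  exact hw (Or.inr rfl)

theorem Amax_hub {b : Rl} (h : b ≠ hub) : Amax hub b := by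
  left
  cases b with
  | hub => exact absurd rfl h
  | cen => trivial
  | c n => trivial

theorem Amin_symm {a b : Rl} (h : Amin a b) : Amin b a := by
  cases a <;> cases b <;> simp only [Amin] at h ⊢ <;> try exact h
  exact Or.symm h

theorem Amax_symm {a b : Rl} (h : Amax a b) : Amax b a := by
  rcases h with h | ⟨i, h | h⟩
  · exact Or.inl (Amin_symm h)
  · exact Or.inr ⟨i, Or.inr ⟨h.2, h.1⟩⟩
  · exact Or.inr ⟨i, Or.inl ⟨h.2, h.1⟩⟩

/-- adding a pair that may be an edge does not create surplus -/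
theorem surp_insert {π : Rl ≃ ℕ} {G : Set Pair} {q : Pair} {a b : Rl} {h : π a ≠ π b}
    (hq : q = pr (π a) (π b) h) (hab : Amax a b) (hs : surp π (insert q G)) : surp π G := by
  obtain ⟨a', b', ⟨h1, h2⟩, h3⟩ := hs
  rcases h2 with h2 | h2
  · exfalso
    rw [hq, pr_eq] at h2
    rcases h2 with ⟨h4, h5⟩ | ⟨h4, h5⟩
    · rw [π.injective h4, π.injective h5] at h3
      exact h3 hab
    · rw [π.injective h4, π.injective h5] at h3
      exact h3 (Amax_symm hab)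
  · exact ⟨a', b', ⟨h1, h2⟩, h3⟩

/-- runs in which only the base pair remains white -/
theorem base_run {τ : Hist → Pair → Bool} (hNW : NW τ) {l0 : Hist}
    {x0 x1 y : ℕ} {hy : x0 ≠ y} (hb : Base τ l0 x0 x1 y hy) {ρ : ℕ → Pair × Bool} (hρ : Run τ ρ)
    {n0 : ℕ} (h0 : l0 <+: hist ρ n0) (hq : ∀ n, (ρ n).1 ≠ pr x0 y hy)
    (hall : ∀ e, e ≠ pr x0 y hy → ∃ n, (ρ n).1 = e) :
    ∃ (I : Set (ℕ → ℕ)) (π : Rl ≃ ℕ), near π (Grn ρ) ∧ ¬ surp π (Grn ρ) ∧ Grn ρ ∉ SI I ∧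
      ¬ surp π (insert (pr x0 y hy) (Grn ρ)) ∧ full π (insert (pr x0 y hy) (Grn ρ)) ∧
      RI I (vl (bit π (insert (pr x0 y hy) (Grn ρ)))) ∧ π hub = x0 ∧ π cen = x1 := by
  obtain ⟨I, π, h1, h2, h3, h4⟩ := nw_all hNW hρ hq hall
  have h5 : Ns π l0 := (ns_of h2 n0).mono h0
  have h6 : π hub = x0 := hb.hub π h5
  have h7 : π cen = x1 := hb.cen π h5
  have hne : π hub ≠ π (π.symm y) := by
    rw [Equiv.apply_symm_apply, h6]
    exact hy
  have h8 : ¬ surp π (insert (pr x0 y hy) (Grn ρ)) := by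
    intro h
    apply h2
    refine surp_insert (a := hub) (b := π.symm y) (h := hne) ?_ (Amax_hub ?_) h
    · rw [pr_eq]
      left
      rw [Equiv.apply_symm_apply, h6]
      exact ⟨rfl, rfl⟩
    · intro hc
      apply hy
      have := congrArg π hc
      rw [Equiv.apply_symm_apply, h6] at this
      exact this.symm
  rcases h4 with h4 | ⟨h4, h9⟩
  · exact absurd h4 h8
  · exact ⟨I, π, h1, h2, h3, h8, h4, h9, h6, h7⟩

/-- every position has places without surplus -/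
theorem exists_ns {τ : Hist → Pair → Bool} (hNW : NW τ) {l0 : Hist}
    {x0 x1 y : ℕ} {hy : x0 ≠ y} (hb : Base τ l0 x0 x1 y hy) {l : Hist} (hl : TG τ l)
    (h0 : l0 <+: l) (hna : ¬ As l (pr x0 y hy)) : ∃ π, Ns π l ∧ π hub = x0 ∧ π cen = x1 := by
  obtain ⟨ρ, hr, hh, h1, h2⟩ := full_run τ _ l hl hna
  obtain ⟨I, π, _, h4, _, _, _, _, h5, h6⟩ := base_run hNW hb hr (n0 := l.length)
    (by rw [hh]; exact h0) h1 h2
  refine ⟨π, ?_, h5, h6⟩
  rw [← hh]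
  exact ns_of h4 _

end Pool.Agent.Q215.Mo
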