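import Mathlib
import Pool.Agent.Q215.Mo.Tau

set_option autoImplicit false

/-! The lazy runs: nothing is asked at the centre, and all roles are found. -/

namespace Pool.Agent.Q215.Mo

open Pool.Agent.Q215.Elus (Pair Hist hist hist_succ hist_length mem_hist TG Run Cs As chain_run
  explore pr pr_comm pr_eq pr_cases ad ad_iff WinRun HS hs_pre hs_run as_snoc finite_as hist_pre
  inf_star fin_time mem_pr)
open Rl

/-- the cactus has no triangle -/
def NoTri : Prop := ∀ x y z : ℕ, x ≠ y → y ≠ z → x ≠ z → C x y → C y z → C x z → False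

theorem C_symm {n m : ℕ} (h : C n m) : C m n := Or.symm h

theorem hk_le (k : ℕ) : hk k ≤ k := Nat.unpair_left_le k

theorem cyc_card (k : ℕ) : (cyc k).card = 2 ^ k + 1 := by
  unfold cyc
  rw [Finset.card_insert_of_notMem, Nat.card_Ico, pow_succ]
  · omega
  · rw [Finset.mem_Ico]
    have h1 := hk_le k
    have h2 : k < 2 ^ k := Nat.lt_two_pow_self
    omega

theorem noTri (hD : S_deg2) : NoTri := by
  intro x y z hxy hyz hxz h1 h2 h3
  obtain ⟨k, hk, hc, _⟩ := hD {x, y, z} ⟨x, by simp⟩ (by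
    intro a ha
    simp only [Finset.mem_insert, Finset.mem_singleton] at ha
    rcases ha with rfl | rfl | rfl
    · exact ⟨y, by simp, z, by simp, hyz, h1, h3⟩
    · exact ⟨x, by simp, z, by simp, hxz, C_symm h1, h2⟩
    · exact ⟨x, by simp, y, by simp, hxy, C_symm h3, C_symm h2⟩)
  have h4 := Finset.card_le_card hc
  rw [cyc_card] at h4
  have h5 : ({x, y, z} : Finset ℕ).card ≤ 3 := Finset.card_le_three
  have h6 : 2 ^ 2 ≤ 2 ^ k := Nat.pow_le_pow_right (by norm_num) hk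
  omega

theorem gr_mod {n : ℕ} (h : gr n) : n % 4 = 0 ∨ n % 4 = 1 := by
  obtain ⟨k, hk, h⟩ := h
  obtain ⟨j, rfl⟩ := Nat.exists_eq_add_of_le hk
  rw [pow_add] at h
  norm_num at h
  omega

theorem vs_mod (i : ℕ) : vs i % 4 = 3 := by
  unfold vs
  rw [pow_add]
  norm_num

theorem vs_inj : Function.Injective vs := by
  intro i j h
  unfold vs at h
  have h1 : 2 ^ (i + 2) = 2 ^ (j + 2) := by omega
  have := Nat.pow_right_injective (le_refl 2) h1
  omega

theorem vs_not_gr (i : ℕ) : ¬ gr (vs i) := by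
  intro h
  have h1 := gr_mod h
  have h2 := vs_mod i
  omega

theorem Amax_cc {n m : ℕ} (h : Amax (c n) (c m)) : C n m := by
  rcases h with h | ⟨i, h | h⟩
  · exact h
  · exact absurd h.1 (by simp)
  · exact absurd h.2 (by simp)

theorem C_big {k : ℕ} (hk : 2 ≤ k) : C (2 ^ k) (2 ^ k + 1) := by
  left
  refine ⟨k, hk, Or.inl ⟨le_refl _, rfl, ?_⟩⟩
  have : 2 ^ 2 ≤ 2 ^ k := Nat.pow_le_pow_right (by norm_num) hk
  rw [pow_succ]
  omega

/-- runs in which nothing is asked at the vertex `x1`, and not the pair `e2` -/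
theorem lazy_run (τ : Hist → Pair → Bool) (x1 : ℕ) (e2 : Pair) (l : Hist) (hl : TG τ l) :
    ∃ ρ, Run τ ρ ∧ hist ρ l.length = l ∧
      (∀ n, l.length ≤ n → (ρ n).1 ≠ e2 ∧ x1 ∉ (ρ n).1.1) ∧
      ∀ e : Pair, e ≠ e2 → x1 ∉ e.1 → ∃ n, (ρ n).1 = e := by
  obtain ⟨ρ, hr, hh, h1, h2⟩ := explore τ (fun _ e => e ≠ e2 ∧ x1 ∉ e.1) (fun _ _ _ _ h => h)
    (fun l' _ => by
      -- a vertex different from `x1`
      obtain ⟨w, h, hw⟩ := inf_star (x1 + 1) ({e | As l' e} ∪ {e2} ∪
          {e | ∃ hne, e = pr (x1 + 1) x1 hne}) (by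
        refine ((finite_as l').union (Set.finite_singleton _)).union ?_
        apply Set.Subsingleton.finite
        rintro a ⟨_, ha⟩ b ⟨_, hb⟩
        rw [ha, hb])
      refine ⟨pr (x1 + 1) w h, ⟨fun hc => hw (Or.inl (Or.inr hc)), ?_⟩,
        fun hc => hw (Or.inl (Or.inl hc))⟩
      rw [mem_pr]
      rintro (hc | hc)
      · omega
      · subst hc
        exact hw (Or.inr ⟨h, rfl⟩)) l hl
  exact ⟨ρ, hr, hh, h1, fun e he hx => h2 0 e ⟨he, hx⟩⟩

/-- a lazy run finds all roles -/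
theorem lazy_pins (hD : S_deg2) (CP : S_cycpin) {τ : Hist → Pair → Bool}
    (hNW : NW τ) {l0 : Hist} {x0 x1 y : ℕ} {hy : x0 ≠ y} (hb : Base τ l0 x0 x1 y hy) {l : Hist}
    (hl : TG τ l) (h0 : l0 <+: l) (hna : ¬ As l (pr x0 y hy)) :
    ∃ (ρ : ℕ → Pair × Bool) (π : Rl ≃ ℕ), Run τ ρ ∧ hist ρ l.length = l ∧
      (∀ n, (ρ n).1 ≠ pr x0 y hy) ∧ (∀ n, l.length ≤ n → x1 ∉ (ρ n).1.1) ∧
      (∀ v, π (c v) ≠ x0 ∧ π (c v) ≠ x1) ∧ ∀ v, ∃ t, Pn (hist ρ t) (c v) (π (c v)) := by
  classical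
  obtain ⟨ρ, hr, hh, h1, h2⟩ := lazy_run τ x1 (pr x0 y hy) l hl
  have hne : ∀ n, (ρ n).1 ≠ pr x0 y hy := by
    intro i hi
    rcases Nat.lt_or_ge i l.length with h | h
    · apply hna
      refine ⟨(ρ i).2, ?_⟩
      rw [← hh, mem_hist]
      exact ⟨i, h, Prod.ext hi rfl⟩
    · exact (h1 i h).1 hi
  obtain ⟨I, hU, _⟩ := nw_get hNW hr ⟨_, hne⟩
  obtain ⟨π, hn, _⟩ := hU
  -- pairs of the upper graph away from the two special vertices are asked
  have hgr : ∀ a b, ad (Upp ρ) (π a) (π b) → π a ≠ x0 → π a ≠ x1 → π b ≠ x0 → π b ≠ x1 →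
      ad (Grn ρ) (π a) (π b) := by
    rintro a b ⟨hab, hu⟩ ha0 ha1 hb0 hb1
    refine ⟨hab, ?_⟩
    rcases hu with hu | hu
    · exact hu
    · exfalso
      obtain ⟨n, hn⟩ := h2 (pr (π a) (π b) hab) (by
        intro h
        rw [pr_eq] at h
        rcases h with h | h
        · exact ha0 h.1
        · exact hb0 h.2) (by
        rw [mem_pr]
        rintro (h | h)
        · exact ha1 h.symm
        · exact hb1 h.symm)
      exact hu n hn
  -- positions and pins
  have hOK : ∀ t, l.length ≤ t → l0 <+: hist ρ t := by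
    intro t ht
    have := hist_pre ρ ht
    rw [hh] at this
    exact h0.trans this
  have hnaT : ∀ t, ¬ As (hist ρ t) (pr x0 y hy) := by
    rintro t ⟨cc, hc⟩
    rw [mem_hist] at hc
    obtain ⟨i, _, hi⟩ := hc
    exact hne i (by rw [hi])
  -- the special vertices have the special roles
  have hsp : ∀ x : Rl, (x = hub ∨ x = cen) → π x = x0 ∨ π x = x1 := by
    intro x hx
    by_contra hcon
    push Not at hcon
    -- a triangle with vertices away from the two special ones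
    let F : Set (Rl × Rl) := {p : Rl × Rl | Amin p.1 p.2 ∧ ¬ ad (Upp ρ) (π p.1) (π p.2)}
    have hbad : Set.Finite {k : ℕ | (x, c (2 ^ k)) ∈ F ∨ (x, c (2 ^ k + 1)) ∈ F ∨
        (c (2 ^ k), c (2 ^ k + 1)) ∈ F ∨ c (2 ^ k) = π.symm x0 ∨ c (2 ^ k) = π.symm x1 ∨
        c (2 ^ k + 1) = π.symm x0 ∨ c (2 ^ k + 1) = π.symm x1} := by
      have p1 : Function.Injective (fun k : ℕ => 2 ^ k) := Nat.pow_right_injective (le_refl 2)
      have p2 : Function.Injective (fun k : ℕ => 2 ^ k + 1) := fun a b h => p1 (Nat.succ.inj h)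
      have i1 : Function.Injective (fun k : ℕ => (x, c (2 ^ k))) := fun a b h => by
        have := (Prod.mk.inj h).2
        exact p1 (Rl.c.inj this)
      have i2 : Function.Injective (fun k : ℕ => (x, c (2 ^ k + 1))) := fun a b h => by
        have := (Prod.mk.inj h).2
        exact p2 (Rl.c.inj this)
      have i3 : Function.Injective (fun k : ℕ => (c (2 ^ k), c (2 ^ k + 1))) := fun a b h => by
        have := (Prod.mk.inj h).1
        exact p1 (Rl.c.inj this)
      have i4 : Function.Injective (fun k : ℕ => c (2 ^ k)) := fun a b h => p1 (Rl.c.inj h)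
      have i5 : Function.Injective (fun k : ℕ => c (2 ^ k + 1)) := fun a b h => p2 (Rl.c.inj h)
      have f1 := Set.Finite.preimage i1.injOn hn
      have f2 := Set.Finite.preimage i2.injOn hn
      have f3 := Set.Finite.preimage i3.injOn hn
      have f4 := Set.Finite.preimage (s := {π.symm x0, π.symm x1}) i4.injOn (Set.toFinite _)
      have f5 := Set.Finite.preimage (s := {π.symm x0, π.symm x1}) i5.injOn (Set.toFinite _)
      refine ((((f1.union f2).union f3).union f4).union f5).subset ?_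
      rintro k (h | h | h | h | h | h | h)
      · exact Or.inl (Or.inl (Or.inl (Or.inl h)))
      · exact Or.inl (Or.inl (Or.inl (Or.inr h)))
      · exact Or.inl (Or.inl (Or.inr h))
      · exact Or.inl (Or.inr (Or.inl h))
      · exact Or.inl (Or.inr (Or.inr h))
      · exact Or.inr (Or.inl h)
      · exact Or.inr (Or.inr h)
    obtain ⟨M, hM⟩ := hbad.bddAbove
    let k := M + 3
    have hk : ¬ ((x, c (2 ^ k)) ∈ F ∨ (x, c (2 ^ k + 1)) ∈ F ∨
        (c (2 ^ k), c (2 ^ k + 1)) ∈ F ∨ c (2 ^ k) = π.symm x0 ∨ c (2 ^ k) = π.symm x1 ∨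
        c (2 ^ k + 1) = π.symm x0 ∨ c (2 ^ k + 1) = π.symm x1) := by
      intro h
      have : k ≤ M := hM h
      omega
    push Not at hk
    obtain ⟨k1, k2, k3, k4, k5, k6, k7⟩ := hk
    have hk2 : 2 ≤ k := by omega
    have ha : ∀ a b, Amin a b → (a, b) ∉ F → ad (Upp ρ) (π a) (π b) := by
      intro a b hab hF
      by_contra hno
      exact hF ⟨hab, hno⟩
    have a1 : Amin x (c (2 ^ k)) := by
      rcases hx with rfl | rfl
      · trivial
      · exact ⟨k, hk2, Or.inl rfl⟩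
    have a2 : Amin x (c (2 ^ k + 1)) := by
      rcases hx with rfl | rfl
      · trivial
      · exact ⟨k, hk2, Or.inr rfl⟩
    have a3 : Amin (c (2 ^ k)) (c (2 ^ k + 1)) := C_big hk2
    have q4 : π (c (2 ^ k)) ≠ x0 := fun h => k4 (by rw [← h, Equiv.symm_apply_apply])
    have q5 : π (c (2 ^ k)) ≠ x1 := fun h => k5 (by rw [← h, Equiv.symm_apply_apply])
    have q6 : π (c (2 ^ k + 1)) ≠ x0 := fun h => k6 (by rw [← h, Equiv.symm_apply_apply])
    have q7 : π (c (2 ^ k + 1)) ≠ x1 := fun h => k7 (by rw [← h, Equiv.symm_apply_apply])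
    obtain ⟨n1, g1, e1⟩ := ad_time (hgr _ _ (ha _ _ a1 k1) hcon.1 hcon.2 q4 q5)
    obtain ⟨n2, g2, e2⟩ := ad_time (hgr _ _ (ha _ _ a2 k2) hcon.1 hcon.2 q6 q7)
    obtain ⟨n3, g3, e3⟩ := ad_time (hgr _ _ (ha _ _ a3 k3) q4 q5 q6 q7)
    let T := n1 + n2 + n3 + 1 + l.length
    obtain ⟨π', hns, hp0, hp1⟩ := exists_ns hNW hb (hr.tg T) (hOK T (by omega)) (hnaT T)
    have hc : ∀ w, w ≠ x0 → w ≠ x1 → ∃ m, π'.symm w = c m := by
      intro w hw0 hw1
      cases h : π'.symm w with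
      | hub => exact absurd (by rw [← hp0, ← h, Equiv.apply_symm_apply]) hw0
      | cen => exact absurd (by rw [← hp1, ← h, Equiv.apply_symm_apply]) hw1
      | c m => exact ⟨m, rfl⟩
    obtain ⟨m1, hm1⟩ := hc _ hcon.1 hcon.2
    obtain ⟨m2, hm2⟩ := hc _ q4 q5
    obtain ⟨m3, hm3⟩ := hc _ q6 q7
    have r1 : π' (c m1) = π x := by rw [← hm1, Equiv.apply_symm_apply]
    have r2 : π' (c m2) = π (c (2 ^ k)) := by rw [← hm2, Equiv.apply_symm_apply]
    have r3 : π' (c m3) = π (c (2 ^ k + 1)) := by rw [← hm3, Equiv.apply_symm_apply]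
    have hmem : ∀ {u v u' v' : ℕ} {n : ℕ} (hu : u ≠ v) (hu' : u' ≠ v'), u = u' → v = v' → n < T →
        ρ n = (pr u' v' hu', true) → (pr u v hu, true) ∈ hist ρ T := by
      intro u v u' v' n hu hu' h3 h4 h5 h6
      subst h3
      subst h4
      rw [mem_hist]
      exact ⟨n, h5, h6⟩
    have s1 : C m1 m2 := Amax_cc (hns (c m1) (c m2) (by rw [r1, r2]; exact g1)
      (hmem _ g1 r1 r2 (by omega) e1))
    have s2 : C m1 m3 := Amax_cc (hns (c m1) (c m3) (by rw [r1, r3]; exact g2)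
      (hmem _ g2 r1 r3 (by omega) e2))
    have s3 : C m2 m3 := Amax_cc (hns (c m2) (c m3) (by rw [r2, r3]; exact g3)
      (hmem _ g3 r2 r3 (by omega) e3))
    refine noTri hD m1 m2 m3 ?_ ?_ ?_ s1 s3 s2
    · rintro rfl
      exact g1 (r1.symm.trans r2)
    · rintro rfl
      exact g3 (r2.symm.trans r3)
    · rintro rfl
      exact g2 (r1.symm.trans r3)
  have hcv : ∀ v, π (c v) ≠ x0 ∧ π (c v) ≠ x1 := by
    intro v
    have h3 := hsp hub (Or.inl rfl)
    have h4 := hsp cen (Or.inr rfl)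
    have h5 : π hub ≠ π cen := fun h => by
      have := π.injective h
      simp at this
    have h6 : π (c v) ≠ π hub := fun h => by
      have := π.injective h
      simp at this
    have h7 : π (c v) ≠ π cen := fun h => by
      have := π.injective h
      simp at this
    rcases h3 with h3 | h3 <;> rcases h4 with h4 | h4
    · exact absurd (h3.trans h4.symm) h5
    · exact ⟨by rw [← h3]; exact h6, by rw [← h4]; exact h7⟩
    · exact ⟨by rw [← h4]; exact h7, by rw [← h3]; exact h6⟩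
    · exact absurd (h3.trans h4.symm) h5
  refine ⟨ρ, π, hr, hh, hne, fun n h => (h1 n h).2, hcv, fun v => ?_⟩
  obtain ⟨Q, hQ1, hQ2⟩ := CP {p : ℕ × ℕ | (c p.1, c p.2) ∈
    {p : Rl × Rl | Amin p.1 p.2 ∧ ¬ ad (Upp ρ) (π p.1) (π p.2)}} (by
      have hi : Function.Injective (fun p : ℕ × ℕ => (c p.1, c p.2)) := by
        rintro ⟨a, b⟩ ⟨a', b'⟩ h
        obtain ⟨h3, h4⟩ := Prod.mk.inj h
        exact Prod.ext (Rl.c.inj h3) (Rl.c.inj h4)
      exact Set.Finite.preimage hi.injOn hn) v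
  obtain ⟨N, hN⟩ := fin_time (Q : Set (ℕ × ℕ)) (Finset.finite_toSet _)
    (fun p n => ∃ hne, ρ n = (pr (π (c p.1)) (π (c p.2)) hne, true)) (by
      intro p hp
      apply ad_time
      apply hgr _ _ _ (hcv _).1 (hcv _).2 (hcv _).1 (hcv _).2
      by_contra hno
      exact (hQ1 p hp).2 ⟨(hQ1 p hp).1, hno⟩)
  refine ⟨N + l.length, fun π' hπ' => ?_⟩
  have hp0 : π' hub = x0 := hb.hub.mono (hOK (N + l.length) (by omega)) π' hπ'
  have hp1 : π' cen = x1 := hb.cen.mono (hOK (N + l.length) (by omega)) π' hπ'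
  have hc : ∀ n, ∃ m, π'.symm (π (c n)) = c m := by
    intro n
    cases h : π'.symm (π (c n)) with
    | hub => exact absurd (by rw [← hp0, ← h, Equiv.apply_symm_apply]) (hcv n).1
    | cen => exact absurd (by rw [← hp1, ← h, Equiv.apply_symm_apply]) (hcv n).2
    | c m => exact ⟨m, rfl⟩
  choose ψ hψ using hc
  have hψ' : ∀ n, π' (c (ψ n)) = π (c n) := fun n => by
    rw [← hψ, Equiv.apply_symm_apply]
  have h3 := hQ2 ψ (by
    intro a b hab
    have h4 : π (c a) = π (c b) := by rw [← hψ', ← hψ', hab]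
    exact Rl.c.inj (π.injective h4)) (by
    intro p hp
    obtain ⟨m, hm, hne', hm2⟩ := hN p hp
    apply Amax_cc
    apply hπ' _ _ (by rw [hψ', hψ']; exact hne')
    rw [mem_hist]
    refine ⟨m, by omega, ?_⟩
    rw [hm2]
    congr 1
    rw [pr_eq]
    exact Or.inl ⟨(hψ' _).symm, (hψ' _).symm⟩)
  rw [← hψ', h3]

end Pool.Agent.Q215.Mo
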