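import Mathlib
import Pool.Agent.Q215.Mo.Lazy

set_option autoImplicit false

/-! The branching step against a strategy of Hider. -/

namespace Pool.Agent.Q215.Mo

open Pool.Agent.Q215.Elus (Pair Hist hist hist_succ hist_length mem_hist TG Run Cs As chain_run
  explore pr pr_comm pr_eq pr_cases ad ad_iff WinRun HS hs_pre hs_run as_snoc finite_as hist_pre
  inf_star fin_time mem_pr)
open Rl

/-- an untouched block all of whose roles are found -/
theorem fresh (hD : S_deg2) (CP : S_cycpin) {τ : Hist → Pair → Bool}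
    (hNW : NW τ) {l0 : Hist} {x0 x1 y : ℕ} {hy : x0 ≠ y} (hb : Base τ l0 x0 x1 y hy) {l : Hist}
    (hl : TG τ l) (h0 : l0 <+: l) (hna : ¬ As l (pr x0 y hy)) (K0 : ℕ) :
    ∃ K, K0 ≤ K ∧ ∃ (w : Fin 5 → ℕ) (hw : ∀ j, x1 ≠ w j) (l' : Hist), l <+: l' ∧ TG τ l' ∧
      ¬ As l' (pr x0 y hy) ∧ (∀ j : Fin 5, Pn l' (c (vs (7 * K + 2 + j.val))) (w j)) ∧
      (∀ j, ¬ As l' (pr x1 (w j) (hw j))) ∧ Function.Injective w := by
  classical
  obtain ⟨ρ, π, hr, hh, hne, hx1, hcv, hpin⟩ := lazy_pins hD CP hNW hb hl h0 hna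
  have hfin : Set.Finite {i : ℕ | ∃ h : x1 ≠ π (c (vs i)), As l (pr x1 (π (c (vs i))) h)} := by
    have hf : Function.Injective (fun i : {i : ℕ // x1 ≠ π (c (vs i))} =>
        pr x1 (π (c (vs i.1))) i.2) := by
      rintro ⟨i, hi⟩ ⟨j, hj⟩ h
      simp only at h
      rw [pr_eq] at h
      rcases h with ⟨_, h⟩ | ⟨h, _⟩
      · have := vs_inj (Rl.c.inj (π.injective h))
        exact Subtype.ext this
      · exact absurd h hj
    have h1 := (Set.Finite.preimage hf.injOn (finite_as l)).image Subtype.val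
    refine h1.subset ?_
    rintro i ⟨h, hi⟩
    exact ⟨⟨i, h⟩, hi, rfl⟩
  obtain ⟨M, hM⟩ := hfin.bddAbove
  let K := K0 + M
  obtain ⟨N, hN⟩ := fin_time (Set.univ : Set (Fin 5)) Set.finite_univ
    (fun j t => Pn (hist ρ t) (c (vs (7 * K + 2 + j.val))) (π (c (vs (7 * K + 2 + j.val)))))
    (fun j _ => hpin _)
  have hle : l <+: hist ρ (N + l.length) := by
    have := hist_pre ρ (show l.length ≤ N + l.length by omega)
    rwa [hh] at this
  refine ⟨K, by omega, fun j => π (c (vs (7 * K + 2 + j.val))), fun j => (hcv _).2.symm,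
    hist ρ (N + l.length), hle, hr.tg _, ?_, ?_, ?_, ?_⟩
  · rintro ⟨b, hc⟩
    rw [mem_hist] at hc
    obtain ⟨i, _, hi⟩ := hc
    exact hne i (by rw [hi])
  · intro j
    obtain ⟨t, ht, hP⟩ := hN j (Set.mem_univ _)
    exact hP.mono (hist_pre ρ (by omega))
  · rintro j ⟨b, hc⟩
    rw [mem_hist] at hc
    obtain ⟨i, _, hi⟩ := hc
    rcases Nat.lt_or_ge i l.length with h | h
    · have h3 : 7 * K + 2 + j.val ≤ M := by
        apply hM
        refine ⟨(hcv _).2.symm, b, ?_⟩
        have h4 : ρ i ∈ hist ρ l.length := by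
          rw [mem_hist]
          exact ⟨i, h, rfl⟩
        rw [hh, hi] at h4
        exact h4
      omega
    · apply hx1 i h
      rw [hi, mem_pr]
      exact Or.inl rfl
  · intro i j hij
    have := vs_inj (Rl.c.inj (π.injective hij))
    exact Fin.ext (by omega)

theorem vl_congr {x x' : ℕ → Bool} {n : ℕ} (h : ∀ i < 7 * (n + 1), x i = x' i) :
    ∀ m ≤ n, vl x m = vl x' m := by
  intro m hm
  unfold vl
  rw [h (7 * (m / 2)) (by omega), h (7 * (m / 2) + 1) (by omega)]
  have : (fun j : Fin 5 => x (7 * (m / 2) + 2 + j.val)) =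
      fun j : Fin 5 => x' (7 * (m / 2) + 2 + j.val) := by
    funext j
    apply h
    omega
  rw [this]

theorem vl_other {x x' : ℕ → Bool} {K : ℕ} {j : Fin 5}
    (h : ∀ i, i ≠ 7 * K + 2 + j.val → x i = x' i) {n : ℕ} (hn : n ≠ 2 * K + 1) :
    vl x n = vl x' n := by
  have hj := j.isLt
  unfold vl
  by_cases h2 : n % 2 = 0
  · rw [if_pos h2, if_pos h2, h (7 * (n / 2)) (by omega), h (7 * (n / 2) + 1) (by omega)]
  · rw [if_neg h2, if_neg h2]
    congr 1
    funext i
    apply h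
    have hi := i.isLt
    omega

theorem vl_blk (x : ℕ → Bool) (K : ℕ) :
    vl x (2 * K + 1) = valB (fun j => x (7 * K + 2 + j.val)) := by
  unfold vl
  rw [if_neg (by omega)]
  have : (2 * K + 1) / 2 = K := by omega
  rw [this]

/-- the answer in the history decides membership in the green graph -/
theorem mem_grn {τ : Hist → Pair → Bool} {ρ : ℕ → Pair × Bool} (hρ : Run τ ρ) {l : Hist} {n : ℕ}
    (hl : l <+: hist ρ n) {e : Pair} {b : Bool} (h : (e, b) ∈ l) : e ∈ Grn ρ ↔ b = true :=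
  cs_grn hρ e b (hs_run n (hl.subset h))

/-- removing a variable pair from a graph without missing edges -/
theorem full_erase {π : Rl ≃ ℕ} {G : Set Pair} {q : Pair} {i : ℕ} {h : π cen ≠ π (c (vs i))}
    (hq : q = pr (π cen) (π (c (vs i))) h) (hf : full π (insert q G)) : full π G := by
  intro a b hab
  obtain ⟨h1, h2⟩ := hf a b hab
  rcases h2 with h2 | h2
  · exfalso
    rw [hq, pr_eq] at h2
    rcases h2 with ⟨h3, h4⟩ | ⟨h3, h4⟩
    · rw [π.injective h3, π.injective h4] at hab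
      exact vs_not_gr i hab
    · rw [π.injective h3, π.injective h4] at hab
      exact vs_not_gr i hab
  · exact ⟨h1, h2⟩

/-- the outcome of a run in which only a found variable pair remains white -/
theorem var_run {τ : Hist → Pair → Bool} (hNW : NW τ) {l0 : Hist} {x0 x1 y : ℕ} {hy : x0 ≠ y}
    (hb : Base τ l0 x0 x1 y hy) {l : Hist} (hl : TG τ l) (h0 : l0 <+: l) {i0 : ℕ} {w : ℕ}
    (hw : x1 ≠ w) (hp : Pn l (c (vs i0)) w) (hna : ¬ As l (pr x1 w hw)) :
    ∃ (I : Set (ℕ → ℕ)) (π : Rl ≃ ℕ) (ρ : ℕ → Pair × Bool), Run τ ρ ∧ hist ρ l.length = l ∧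
      Ns π l ∧ full π (Grn ρ) ∧ ¬ RI I (vl (bit π (Grn ρ))) ∧
      RI I (vl (bit π (insert (pr x1 w hw) (Grn ρ)))) ∧ π cen = x1 ∧ π (c (vs i0)) = w ∧
      pr x1 w hw ∉ Grn ρ := by
  obtain ⟨ρ, hr, hh, h1, h2⟩ := full_run τ _ l hl hna
  obtain ⟨I, π, h3, h4, h5, h6⟩ := nw_all hNW hr h1 h2
  have hns : Ns π l := by
    have := ns_of h4 l.length
    rwa [hh] at this
  have e1 : π cen = x1 := hb.cen.mono h0 π hns
  have e2 : π (c (vs i0)) = w := hp π hns
  have hne : π cen ≠ π (c (vs i0)) := by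
    rw [e1, e2]
    exact hw
  have hq : pr x1 w hw = pr (π cen) (π (c (vs i0))) hne := by
    rw [pr_eq]
    exact Or.inl ⟨e1.symm, e2.symm⟩
  have h7 : ¬ surp π (insert (pr x1 w hw) (Grn ρ)) := fun h =>
    h4 (surp_insert hq (Or.inr ⟨i0, Or.inl ⟨rfl, rfl⟩⟩) h)
  rcases h6 with h6 | ⟨h6, h8⟩
  · exact absurd h6 h7
  · have h9 : full π (Grn ρ) := full_erase hq h6
    refine ⟨I, π, ρ, hr, hh, hns, h9, fun hR => h5 ⟨π, h3, Or.inr ⟨h9, hR⟩⟩, h8, e1, e2, ?_⟩
    rintro ⟨n, hn⟩
    exact h1 n (by rw [hn])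

/-- against a strategy which Seeker does not beat for all sets, every run in which only the base
pair remains white codes a sequence -/
theorem exact_run (RP : S_rolepin) (hD : S_deg2) (CP : S_cycpin) {τ : Hist → Pair → Bool}
    (hNW : NW τ) {l0 : Hist} {x0 x1 y : ℕ} {hy : x0 ≠ y} (hb : Base τ l0 x0 x1 y hy)
    {ρ : ℕ → Pair × Bool} (hρ : Run τ ρ) {n0 : ℕ} (h0 : l0 <+: hist ρ n0)
    (hq : ∀ n, (ρ n).1 ≠ pr x0 y hy) (hall : ∀ e, e ≠ pr x0 y hy → ∃ n, (ρ n).1 = e) :
    ∃ π : Rl ≃ ℕ, ¬ surp π (insert (pr x0 y hy) (Grn ρ)) ∧ full π (insert (pr x0 y hy) (Grn ρ)) ∧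
      ¬ full π (Grn ρ) ∧ ∀ n, Mid (vl (bit π (insert (pr x0 y hy) (Grn ρ))) n) := by
  classical
  obtain ⟨I, π, h1, h2, h3, h4, h5, h6, h7, h8⟩ := base_run hNW hb hρ h0 hq hall
  have hnf : ¬ full π (Grn ρ) := by
    intro hf
    have hne : π hub ≠ π (π.symm y) := by
      rw [Equiv.apply_symm_apply, h7]
      exact hy
    obtain ⟨k1, n, k2⟩ := hf hub (π.symm y) (by
      cases hc : π.symm y with
      | hub => exact absurd (by rw [hc]) hne
      | cen => trivial
      | c n => trivial)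
    apply hq n
    rw [k2]
    show pr _ _ k1 = _
    rw [pr_eq]
    left
    rw [Equiv.apply_symm_apply, h7]
    exact ⟨rfl, rfl⟩
  rcases h6 with ⟨n, hn, hnm⟩ | ⟨hm, _⟩
  swap
  · exact ⟨π, h4, h5, hnf, hm⟩
  exfalso
  have hx1 : ∀ i, x1 ≠ π (c (vs i)) := by
    intro i h
    rw [← h8] at h
    have := π.injective h
    simp at this
  have he2 : ∀ i, pr x1 (π (c (vs i))) (hx1 i) ≠ pr x0 y hy := by
    intro i h
    rw [pr_eq] at h
    rcases h with ⟨h, _⟩ | ⟨h, _⟩
    · exact hb.ne h.symm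
    · exact hb.ney h.symm
  -- a time at which everything up to the block is known
  obtain ⟨N, hN⟩ := fin_time (Set.Iio (7 * (n + 1))) (Set.finite_Iio _)
    (fun i t => (ρ t).1 = pr x1 (π (c (vs i))) (hx1 i)) (fun i _ => hall _ (he2 i))
  obtain ⟨N', hN'⟩ := fin_time (Set.Iio (7 * (n + 1))) (Set.finite_Iio _)
    (fun i t => Pn (hist ρ t) (c (vs i)) (π (c (vs i)))) (fun i _ => pin_time RP h1 _)
  let T := N + N' + n0
  have hT0 : l0 <+: hist ρ T := h0.trans (hist_pre ρ (by omega))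
  have hTna : ¬ As (hist ρ T) (pr x0 y hy) := by
    rintro ⟨b, hc⟩
    rw [mem_hist] at hc
    obtain ⟨i, _, hi⟩ := hc
    exact hq i (by rw [hi])
  obtain ⟨K, hK, w, hw, l', g1, g2, g3, g4, g5, g6⟩ := fresh hD CP hNW hb (hρ.tg T) hT0 hTna n
  obtain ⟨I', π', ρ', r1, r2, r3, r4, r5, _, r7, r8, _⟩ := var_run hNW hb g2 (hT0.trans g1) (hw 0)
    (g4 0) (g5 0)
  apply r5
  left
  have hvl : ∀ m ≤ n, vl (bit π' (Grn ρ')) m = vl (bit π (insert (pr x0 y hy) (Grn ρ))) m := by
    apply vl_congr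
    intro i hi
    obtain ⟨t, ht, ht2⟩ := hN i hi
    obtain ⟨t', ht', hP⟩ := hN' i hi
    have e3 : π' (c (vs i)) = π (c (vs i)) :=
      hP π' ((r3.mono g1).mono (hist_pre ρ (by omega)))
    have hmem : (pr x1 (π (c (vs i))) (hx1 i), (ρ t).2) ∈ hist ρ T := by
      rw [mem_hist]
      exact ⟨t, by omega, Prod.ext ht2 rfl⟩
    have k1 : pr x1 (π (c (vs i))) (hx1 i) ∈ Grn ρ ↔ (ρ t).2 = true :=
      mem_grn hρ (List.prefix_refl _) hmem
    have k2 : pr x1 (π (c (vs i))) (hx1 i) ∈ Grn ρ' ↔ (ρ t).2 = true :=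
      mem_grn r1 (n := l'.length) (by rw [r2]) (g1.subset hmem)
    rw [Bool.eq_iff_iff, bit_iff, bit_iff, r7, e3, h8, ad_iff _ (hx1 i), ad_iff _ (hx1 i), k2,
      Set.mem_insert_iff, ← k1]
    constructor
    · exact fun h => Or.inr h
    · rintro (h | h)
      · exact absurd h (he2 i)
      · exact h
  refine ⟨n, by rw [hvl n le_rfl]; exact hn, fun m hm => ?_⟩
  rw [hvl m hm.le]
  exact hnm m hm

/-- the last question of a block is decisive -/
theorem no_flat {τ : Hist → Pair → Bool} (hNW : NW τ) {l0 : Hist} {x0 x1 y : ℕ} {hy : x0 ≠ y}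
    (hb : Base τ l0 x0 x1 y hy) {l : Hist} (hl : TG τ l) (h0 : l0 <+: l) {K : ℕ} {w : Fin 5 → ℕ}
    (hw : ∀ j, x1 ≠ w j) (hp : ∀ j : Fin 5, Pn l (c (vs (7 * K + 2 + j.val))) (w j))
    (j : Fin 5)
    (u : Fin 5 → Bool) (hna : ¬ As l (pr x1 (w j) (hw j)))
    (hu : ∀ i, i ≠ j → (pr x1 (w i) (hw i), u i) ∈ l)
    (hv : valB (Function.update u j false) = valB (Function.update u j true)) : False := by
  obtain ⟨I, π, ρ, r1, r2, r3, r4, r5, r6, r7, r8, r9⟩ := var_run hNW hb hl h0 (hw j) (hp j) hna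
  apply r5
  have hpl : ∀ i : Fin 5, π (c (vs (7 * K + 2 + i.val))) = w i := fun i => hp i π r3
  have hoth : ∀ i, i ≠ 7 * K + 2 + j.val → bit π (Grn ρ) i =
      bit π (insert (pr x1 (w j) (hw j)) (Grn ρ)) i := by
    intro i hi
    rw [Bool.eq_iff_iff, bit_iff, bit_iff]
    constructor
    · exact ad_mono (Set.subset_insert _ _)
    · rintro ⟨h1, h2 | h2⟩
      · exfalso
        rw [pr_eq] at h2
        rcases h2 with ⟨_, h2⟩ | ⟨h2, _⟩
        · rw [← r8] at h2
          exact hi (vs_inj (Rl.c.inj (π.injective h2)))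
        · rw [r7] at h2
          exact hw j h2
      · exact ⟨h1, h2⟩
  have hval : ∀ i : Fin 5, i ≠ j → bit π (Grn ρ) (7 * K + 2 + i.val) = u i := by
    intro i hij
    rw [Bool.eq_iff_iff, bit_iff, r7, hpl, ad_iff _ (hw i)]
    exact mem_grn r1 (n := l.length) (by rw [r2]) (hu i hij)
  have hj0 : bit π (Grn ρ) (7 * K + 2 + j.val) = false := by
    rw [Bool.eq_false_iff]
    intro h
    rw [bit_iff, r7, hpl, ad_iff _ (hw j)] at h
    exact r9 h
  have hj1 : bit π (insert (pr x1 (w j) (hw j)) (Grn ρ)) (7 * K + 2 + j.val) = true := by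
    rw [bit_iff, r7, hpl, ad_iff _ (hw j)]
    exact Or.inl rfl
  have heq : vl (bit π (Grn ρ)) = vl (bit π (insert (pr x1 (w j) (hw j)) (Grn ρ))) := by
    funext n
    by_cases hn : n = 2 * K + 1
    · subst hn
      rw [vl_blk, vl_blk]
      have e1 : (fun i : Fin 5 => bit π (Grn ρ) (7 * K + 2 + i.val)) =
          Function.update u j false := by
        funext i
        by_cases hij : i = j
        · subst hij
          rw [Function.update_self, hj0]
        · rw [Function.update_of_ne hij, hval i hij]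
      have e2 : (fun i : Fin 5 => bit π (insert (pr x1 (w j) (hw j)) (Grn ρ))
          (7 * K + 2 + i.val)) = Function.update u j true := by
        funext i
        by_cases hij : i = j
        · subst hij
          rw [Function.update_self, hj1]
        · rw [Function.update_of_ne hij, ← hoth _ (by
            intro h
            exact hij (Fin.ext (by omega))), hval i hij]
      rw [e1, e2, hv]
    · exact vl_other hoth hn
  rw [heq]
  exact r6

theorem fw5_start (b : ℕ) (h1 : 1 ≤ b) (h5 : b ≤ 5) : fw5 5 b (fun _ => none) := by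
  interval_cases b
  · exact fw5_start1
  · exact fw5_start2
  · exact fw5_start3
  · exact fw5_start4
  · exact fw5_start5

/-- one branching -/
theorem step (RP : S_rolepin) (hD : S_deg2) (CP : S_cycpin) (τ : Hist → Pair → Bool) (hNW : NW τ)
    {l0 : Hist} {x0 x1 y : ℕ} {hy : x0 ≠ y} (hb : Base τ l0 x0 x1 y hy)
    (l : Hist) (hl : TG τ l) (h0 : l0 <+: l) (h2 : ¬ As l (pr x0 y hy)) :
    ∃ (m : ℕ) (cc : Bool → ℕ) (L : Bool → Hist), cc false ≠ cc true ∧ ∀ b,
      l <+: L b ∧ l.length < (L b).length ∧ TG τ (L b) ∧ ¬ As (L b) (pr x0 y hy) ∧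
      ∀ G π, Cs (HS (L b)) G → ¬ surp π G → vl (bit π G) m = cc b := by
  classical
  obtain ⟨K, _, w, hw, l1, g1, g2, g3, g4, g5, g6⟩ := fresh hD CP hNW hb hl h0 h2 0
  have hqi : Function.Injective (fun j : Fin 5 => pr x1 (w j) (hw j)) := by
    intro i j hij
    simp only at hij
    rw [pr_eq] at hij
    rcases hij with ⟨_, h⟩ | ⟨h, _⟩
    · exact g6 h
    · exact absurd h (hw j)
  have hqe : ∀ j : Fin 5, pr x1 (w j) (hw j) ≠ pr x0 y hy := by
    intro i h
    rw [pr_eq] at h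
    rcases h with ⟨h, _⟩ | ⟨h, _⟩
    · exact hb.ne h.symm
    · exact hb.ney h.symm
  have main : ∀ b, 1 ≤ b → b ≤ 5 → ∃ l2 u, valB u ≠ b ∧ Mid (valB u) ∧ l <+: l2 ∧
      l.length < l2.length ∧ TG τ l2 ∧ ¬ As l2 (pr x0 y hy) ∧
      ∀ G π, Cs (HS l2) G → ¬ surp π G → vl (bit π G) (2 * K + 1) = valB u := by
    intro b hb1 hb5
    obtain ⟨l2, k1, k2, k3, k4⟩ := play5 τ _ hqi (pr x0 y hy) hqe b 5 (fun _ => none)
      (fw5_start b hb1 hb5) (by simp) l1 g2 g3 (fun j => g5 j)
    have hp2 : ∀ j : Fin 5, Pn l2 (c (vs (7 * K + 2 + j.val))) (w j) := fun j => (g4 j).mono k1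
    rcases k4 with ⟨u, hu, huc⟩ | ⟨j, u, hj, hu, huk⟩
    · have hkey : ∀ G π, Cs (HS l2) G → ¬ surp π G → vl (bit π G) (2 * K + 1) = valB u := by
        intro G π hG hs
        have hns : Ns π l2 := by
          intro a a' haa hmem
          by_contra hno
          exact hs ⟨a, a', ⟨haa, (hG _ _ hmem).mpr rfl⟩, hno⟩
        have e1 : π cen = x1 := hb.cen.mono ((h0.trans g1).trans k1) π hns
        rw [vl_blk]
        congr 1
        funext j
        rw [Bool.eq_iff_iff, bit_iff, e1, hp2 j π hns, ad_iff _ (hw j)]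
        exact hG _ _ (hu j)
      refine ⟨l2, u, huc, ?_, g1.trans k1, ?_, k2, k3, hkey⟩
      · obtain ⟨ρ, hr, hh, h3, h4⟩ := full_run τ _ l2 k2 k3
        obtain ⟨π, e1, e2, _, e3⟩ := exact_run RP hD CP hNW hb hr (n0 := l2.length) (by
          rw [hh]
          exact (h0.trans g1).trans k1) h3 h4
        have hC : Cs (HS l2) (insert (pr x0 y hy) (Grn ρ)) := by
          intro e b' he
          have hne : e ≠ pr x0 y hy := by
            rintro rfl
            exact k3 ⟨b', he⟩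
          rw [Set.mem_insert_iff, mem_grn hr (n := l2.length) (by rw [hh]) he]
          simp [hne]
        have := e3 (2 * K + 1)
        rwa [hkey _ π hC e1] at this
      · have hpre := g1.trans k1
        rcases Nat.lt_or_ge l.length l2.length with h | h
        · exact h
        · exfalso
          have h5 : l = l2 := hpre.eq_of_length_le h
          apply g5 0
          refine ⟨u 0, ?_⟩
          apply g1.subset
          rw [h5]
          exact hu 0
    · exact absurd (no_flat hNW hb k2 ((h0.trans g1).trans k1) hw hp2 j u hj hu huk) id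
  obtain ⟨la, ua, ha, hma, ha'⟩ := main 1 le_rfl (by norm_num)
  obtain ⟨lb, ub, hub', hmb, hb'⟩ := main (valB ua) (by
    have := hma.1
    omega) (by
    have h3 := hma.2
    have h4 := valB_le ua
    omega)
  refine ⟨2 * K + 1, fun b => if b then valB ub else valB ua, fun b => if b then lb else la,
    ?_, ?_⟩
  · simp only [Bool.false_eq_true, if_false, if_true]
    exact hub'.symm
  · intro b
    cases b
    · simpa using ha'
    · simpa using hb'

end Pool.Agent.Q215.Mo
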