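import Mathlib
import Pool.Agent.Q215.Mo.Step

set_option autoImplicit false

/-! The tree of runs against a strategy of Hider. -/

namespace Pool.Agent.Q215.Mo

open Pool.Agent.Q215.Elus (Pair Hist hist hist_succ hist_length mem_hist TG Run Cs As chain_run
  explore pr pr_comm pr_eq pr_cases ad ad_iff WinRun HS hs_pre hs_run as_snoc finite_as hist_pre
  inf_star fin_time mem_pr)
open Rl

/-- Hider's strategies -/
theorem part_T (RP : S_rolepin) (hD : S_deg2) (CP : S_cycpin) (τ : Hist → Pair → Bool) :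
    (∃ ρ, Run τ ρ ∧ ∀ I, WinRun (SI I) ρ) ∨
    ∃ (R : (ℕ → Bool) → ℕ → Pair × Bool) (zz : (ℕ → Bool) → ℕ → ℕ),
      Function.Injective zz ∧ ∀ b, Run τ (R b) ∧ ∀ I, zz b ∉ I → WinRun (SI I) (R b) := by
  classical
  by_cases hex : ∃ ρ, Run τ ρ ∧ ∀ I, WinRun (SI I) ρ
  · exact Or.inl hex
  right
  have hNW : NW τ := fun ρ hρ hI => hex ⟨ρ, hρ, hI⟩
  obtain ⟨l0, x0, x1, y, hy, hb⟩ := base_exists RP τ hNW
  have : Nonempty Pair := ⟨pr x0 y hy⟩
  obtain ⟨en, hen⟩ := exists_surjective_nat Pair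
  let OK : Hist → Prop := fun l => TG τ l ∧ l0 <+: l ∧ ¬ As l (pr x0 y hy)
  have hnext : ∀ l, OK l → ∃ (m : ℕ) (cc : Bool → ℕ) (L : Bool → Hist), cc false ≠ cc true ∧ ∀ b,
      l <+: L b ∧ l.length < (L b).length ∧ TG τ (L b) ∧ ¬ As (L b) (pr x0 y hy) ∧
      ∀ G π, Cs (HS (L b)) G → ¬ surp π G → vl (bit π G) m = cc b :=
    fun l hl => step RP hD CP τ hNW hb l hl.1 hl.2.1 hl.2.2
  choose! mm cc L hcc hL using hnext
  let ask : Hist → Pair → Hist := fun l e =>
    if e ≠ pr x0 y hy ∧ ¬ As l e then l ++ [(e, τ l e)] else l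
  have hask : ∀ l e, l <+: ask l e := by
    intro l e
    show l <+: (if e ≠ pr x0 y hy ∧ ¬ As l e then l ++ [(e, τ l e)] else l)
    split_ifs
    · exact List.prefix_append _ _
    · exact List.prefix_refl _
  have hask2 : ∀ l e, OK l → OK (ask l e) := by
    intro l e hl
    show OK (if e ≠ pr x0 y hy ∧ ¬ As l e then l ++ [(e, τ l e)] else l)
    split_ifs with h
    · refine ⟨TG.snoc _ _ hl.1 fun c hc => h.2 ⟨c, hc⟩, hl.2.1.trans (List.prefix_append _ _), ?_⟩
      rw [as_snoc]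
      rintro (h' | h')
      · exact hl.2.2 h'
      · exact h.1 h'.symm
    · exact hl
  have hask3 : ∀ l e, e ≠ pr x0 y hy → As (ask l e) e := by
    intro l e he
    show As (if e ≠ pr x0 y hy ∧ ¬ As l e then l ++ [(e, τ l e)] else l) e
    split_ifs with h
    · rw [as_snoc]
      exact Or.inr rfl
    · push Not at h
      exact h he
  let H : (ℕ → Bool) → ℕ → Hist := fun β k =>
    Nat.rec l0 (fun k l => ask (L l (β k)) (en k)) k
  have hHs : ∀ β k, H β (k + 1) = ask (L (H β k) (β k)) (en k) := fun β k => rfl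
  have hOK : ∀ β k, OK (H β k) := by
    intro β k
    induction k with
    | zero => exact ⟨hb.tg, List.prefix_refl _, hb.na⟩
    | succ k ih =>
      rw [hHs]
      obtain ⟨h1, h2, h3, h4, h5⟩ := hL _ ih (β k)
      exact hask2 _ _ ⟨h3, ih.2.1.trans h1, h4⟩
  have hpre : ∀ β k, H β k <+: H β (k + 1) := by
    intro β k
    rw [hHs]
    exact (hL _ (hOK β k) (β k)).1.trans (hask _ _)
  have hlen : ∀ β k, k ≤ (H β k).length := by
    intro β k
    induction k with
    | zero => exact Nat.zero_le _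
    | succ k ih =>
      rw [hHs]
      have h1 := (hL _ (hOK β k) (β k)).2.1
      have h2 := (hask (L (H β k) (β k)) (en k)).length_le
      omega
  have hrun : ∀ β, ∃ ρ : ℕ → Pair × Bool, Run τ ρ ∧ (∀ k, H β k = hist ρ (H β k).length) ∧
      (∀ x, (∃ n, ρ n = x) ↔ ∃ k, x ∈ H β k) := fun β =>
    chain_run τ (H β) (fun k => (hOK β k).1) (hpre β) (hlen β)
  choose R hR hRH hRm using hrun
  have hRe2 : ∀ β n, (R β n).1 ≠ pr x0 y hy := by
    intro β n hn
    obtain ⟨k, hk⟩ := (hRm β (R β n)).mp ⟨n, rfl⟩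
    exact (hOK β k).2.2 ⟨(R β n).2, by rw [← hn]; exact hk⟩
  have hRall : ∀ β e, e ≠ pr x0 y hy → ∃ n, (R β n).1 = e := by
    intro β e he
    obtain ⟨k, rfl⟩ := hen e
    obtain ⟨c, hc⟩ : As (H β (k + 1)) (en k) := by
      rw [hHs]
      exact hask3 _ _ he
    obtain ⟨n, hn⟩ := (hRm β _).mpr ⟨k + 1, hc⟩
    exact ⟨n, by rw [hn]⟩
  have hG : ∀ β, ∃ π : Rl ≃ ℕ, ¬ surp π (insert (pr x0 y hy) (Grn (R β))) ∧
      full π (insert (pr x0 y hy) (Grn (R β))) ∧ ¬ full π (Grn (R β)) ∧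
      ∀ n, Mid (vl (bit π (insert (pr x0 y hy) (Grn (R β)))) n) := fun β =>
    exact_run RP hD CP hNW hb (hR β) (n0 := (H β 0).length) (by
      rw [← hRH β 0]
      exact List.prefix_refl _) (hRe2 β) (hRall β)
  choose π hGs hGf hGn hGm using hG
  let G : (ℕ → Bool) → Set Pair := fun β => insert (pr x0 y hy) (Grn (R β))
  have hCs : ∀ β, Cs (Set.range (R β)) (G β) := by
    intro β
    have h1 : Upp (R β) = G β := upp_eq (hRe2 β) (hRall β)
    rw [← h1]
    exact cs_upp (hR β)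
  have hsub : ∀ β k, HS (H β k) ⊆ Set.range (R β) := by
    intro β k y hy
    exact (hRm β y).mpr ⟨k, hy⟩
  refine ⟨R, fun β => vl (bit (π β) (G β)), ?_, ?_⟩
  · intro β β' hββ
    by_contra hne
    have hne' : ∃ k, β k ≠ β' k := by
      by_contra h
      push Not at h
      exact hne (funext h)
    have hk := Nat.find_spec hne'
    have hk' : ∀ i < Nat.find hne', β i = β' i := fun i hi => by
      have := Nat.find_min hne' hi
      push Not at this
      exact this
    generalize Nat.find hne' = k at hk hk'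
    have hHe : ∀ i ≤ k, H β i = H β' i := by
      intro i
      induction i with
      | zero => intro _; rfl
      | succ i ih =>
        intro hi
        rw [hHs, hHs, ih (by omega), hk' i (by omega)]
    have h1 := (hL _ (hOK β k) (β k)).2.2.2.2 (G β) (π β)
      (Pool.Agent.Q215.Elus.Cs.mono (hCs β) ((hs_pre (hask _ (en k))).trans (hsub β (k + 1))))
      (hGs β)
    have h2 := (hL _ (hOK β' k) (β' k)).2.2.2.2 (G β') (π β')
      (Pool.Agent.Q215.Elus.Cs.mono (hCs β') ((hs_pre (hask _ (en k))).trans (hsub β' (k + 1))))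
      (hGs β')
    have h3 : vl (bit (π β) (G β)) = vl (bit (π β') (G β')) := hββ
    rw [← hHe k le_rfl, ← h3, h1] at h2
    have h4 := hcc _ (hOK β k)
    cases hβ : β k <;> cases hβ' : β' k
    · rw [hβ, hβ'] at hk
      exact hk rfl
    · rw [hβ, hβ'] at h2
      exact h4 h2
    · rw [hβ, hβ'] at h2
      exact h4 h2.symm
    · rw [hβ, hβ'] at hk
      exact hk rfl
  · intro β
    refine ⟨hR β, fun I hI => ?_⟩
    rw [win_iff (hR β) ⟨_, hRe2 β⟩]
    right
    rw [upp_eq (hRe2 β) (hRall β), mem_SI RP (hGs β)]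
    rintro ⟨_, h1 | h1⟩
    · obtain ⟨n, hn, _⟩ := h1
      exact (hGm β n).2 hn
    · exact hI h1.2

end Pool.Agent.Q215.Mo
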