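import Mathlib
import Pool.Agent.Q215.Mo.Tree
import Pool.Agent.Q215.Mo.Gd
import Pool.Agent.Q215.ElusH

set_option autoImplicit false

/-! Every strategy of Seeker: Hider leaves only one sequence undecided, with free even values. -/

namespace Pool.Agent.Q215.Mo

open Pool.Agent.Q215.Elus (Pair Hist hist hist_succ hist_length mem_hist TG Run Cs As chain_run
  explore pr pr_comm pr_eq pr_cases ad ad_iff WinRun HS hs_pre hs_run as_snoc finite_as hist_pre
  inf_star fin_time mem_pr both)
open Rl

theorem cen_ne (π : Rl ≃ ℕ) (n : ℕ) : π cen ≠ π (c n) := by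
  intro h
  have := π.injective h
  simp at this

/-- the variable pairs -/
def vq (π : Rl ≃ ℕ) (i : ℕ) : Pair := pr (π cen) (π (c (vs i))) (cen_ne π _)

theorem vq_inj (π : Rl ≃ ℕ) : Function.Injective (vq π) := by
  intro i j h
  unfold vq at h
  rw [pr_eq] at h
  rcases h with ⟨_, h⟩ | ⟨h, _⟩
  · exact vs_inj (Rl.c.inj (π.injective h))
  · exact absurd h (cen_ne π _)

theorem bit_vq {π : Rl ≃ ℕ} {G : Set Pair} {i : ℕ} : bit π G i = true ↔ vq π i ∈ G := by
  rw [bit_iff, ad_iff _ (cen_ne π _)]
  rfl

/-- the pairs that are always edges -/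
def std (π : Rl ≃ ℕ) : Set Pair := {e | ∃ a b, Amin a b ∧ ∃ h, e = pr (π a) (π b) h}

/-- the state of a block -/
noncomputable def bs (π : Rl ≃ ℕ) (l : Hist) (K : ℕ) : St5 := by
  classical
  exact fun j => if (vq π (7 * K + 2 + j.val), true) ∈ l then some true
    else if (vq π (7 * K + 2 + j.val), false) ∈ l then some false else none

theorem bs_some {π : Rl ≃ ℕ} {l : Hist} {n : ℕ} {j : Fin 5} {a : Bool}
    (h : bs π l n j = some a) : (vq π (7 * n + 2 + j.val), a) ∈ l := by
  unfold bs at h
  split_ifs at h with h1 h2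
  · cases h; exact h1
  · cases h; exact h2

theorem bs_none {π : Rl ≃ ℕ} {l : Hist} {n : ℕ} {j : Fin 5} :
    bs π l n j = none ↔ ¬ As l (vq π (7 * n + 2 + j.val)) := by
  unfold bs As
  split_ifs with h1 h2
  · simp only [false_iff, not_not]
    exact ⟨_, h1⟩
  · simp only [false_iff, not_not]
    exact ⟨_, h2⟩
  · simp only [true_iff]
    rintro ⟨c, hc⟩
    cases c
    · exact h2 hc
    · exact h1 hc

theorem bs_snoc_other {π : Rl ≃ ℕ} {l : Hist} {n : ℕ} {e : Pair} {b : Bool}
    (h : ∀ j : Fin 5, e ≠ vq π (7 * n + 2 + j.val)) : bs π (l ++ [(e, b)]) n = bs π l n := by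
  funext j
  unfold bs
  have h1 : ∀ a, ((vq π (7 * n + 2 + j.val), a) ∈ l ++ [(e, b)]) ↔
      (vq π (7 * n + 2 + j.val), a) ∈ l := by
    intro a
    rw [List.mem_append, List.mem_singleton]
    constructor
    · rintro (k | k)
      · exact k
      · exact absurd (Prod.mk.inj k).1.symm (h j)
    · exact Or.inl
  simp only [h1]

theorem bs_snoc_self {π : Rl ≃ ℕ} {l : Hist} {n : ℕ} {j : Fin 5} {b : Bool}
    (h : ¬ As l (vq π (7 * n + 2 + j.val))) :
    bs π (l ++ [(vq π (7 * n + 2 + j.val), b)]) n = up5 (bs π l n) j b := by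
  funext i
  by_cases hij : i = j
  · subst hij
    have h1 : up5 (bs π l n) i b i = some b := by simp [up5]
    rw [h1]
    unfold bs
    have h2 : ∀ a, ((vq π (7 * n + 2 + i.val), a) ∈ l ++ [(vq π (7 * n + 2 + i.val), b)]) ↔
        a = b := by
      intro a
      rw [List.mem_append, List.mem_singleton]
      constructor
      · rintro (k | k)
        · exact absurd ⟨_, k⟩ h
        · exact (Prod.mk.inj k).2
      · rintro rfl
        exact Or.inr rfl
    simp only [h2]
    cases b <;> simp
  · have h1 : up5 (bs π l n) j b i = bs π l n i := by simp [up5, hij]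
    rw [h1]
    unfold bs
    have h2 : ∀ a, ((vq π (7 * n + 2 + i.val), a) ∈ l ++ [(vq π (7 * n + 2 + j.val), b)]) ↔
        (vq π (7 * n + 2 + i.val), a) ∈ l := by
      intro a
      rw [List.mem_append, List.mem_singleton]
      constructor
      · rintro (k | k)
        · exact k
        · exfalso
          have := vq_inj π (Prod.mk.inj k).1
          exact hij (Fin.ext (by omega))
      · exact Or.inl
    simp only [h2]

/-- what Hider maintains -/
structure Inv (π : Rl ≃ ℕ) (h : ℕ → Bool) (l : Hist) : Prop where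
  gd : ∀ n, Good5 (bs π l n)
  fr : ∀ n b, (vq π (7 * n), b) ∈ l → b = h n
  fr' : ∀ n b, (vq π (7 * n + 1), b) ∈ l → b = !h n
  sk : ∀ e b, (e, b) ∈ l → (∀ i, e ≠ vq π i) → (b = true ↔ e ∈ std π)

theorem inv_nil (π : Rl ≃ ℕ) (h : ℕ → Bool) : Inv π h [] := by
  refine ⟨fun n => ?_, fun n c hc => by simp at hc, fun n c hc => by simp at hc,
    fun e c hc => by simp at hc⟩
  have h1 : bs π [] n = fun _ => none := by
    funext j
    rw [bs_none]
    rintro ⟨c, hc⟩
    simp at hc
  rw [h1]
  exact good5_start'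

theorem inv_step (π : Rl ≃ ℕ) (h : ℕ → Bool) (l : Hist) (hl : Inv π h l) (e : Pair)
    (he : ¬ As l e) : ∃ a, Inv π h (l ++ [(e, a)]) := by
  classical
  by_cases h1 : ∃ i, e = vq π i
  · obtain ⟨i, rfl⟩ := h1
    have hdis : ∀ a i' b, (∀ n, i' = n → i ≠ n) → (vq π i', b) ∈ l ++ [(vq π i, a)] →
        (vq π i', b) ∈ l := by
      intro a i' b hn hc
      rw [List.mem_append, List.mem_singleton] at hc
      rcases hc with hc | hc
      · exact hc
      · exact absurd (vq_inj π (Prod.mk.inj hc).1).symm (hn _ rfl)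
    have hsk : ∀ a, ∀ e b, (e, b) ∈ l ++ [(vq π i, a)] → (∀ i, e ≠ vq π i) →
        (b = true ↔ e ∈ std π) := by
      intro a e b hc hv
      rw [List.mem_append, List.mem_singleton] at hc
      rcases hc with hc | hc
      · exact hl.sk e b hc hv
      · exact absurd (Prod.mk.inj hc).1 (hv _)
    by_cases h2 : i % 7 = 0
    · refine ⟨h (i / 7), ?_, ?_, ?_, hsk _⟩
      · intro n
        rw [bs_snoc_other]
        · exact hl.gd n
        · intro j hj
          have := vq_inj π hj
          have := j.isLt
          omega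
      · intro n b hc
        rw [List.mem_append, List.mem_singleton] at hc
        rcases hc with hc | hc
        · exact hl.fr n b hc
        · obtain ⟨h3, h4⟩ := Prod.mk.inj hc
          have := vq_inj π h3
          rw [h4]
          congr 1
          omega
      · intro n b hc
        refine hl.fr' n b (hdis _ _ _ ?_ hc)
        intro m hm hi
        omega
    · by_cases h3 : i % 7 = 1
      · refine ⟨!h (i / 7), ?_, ?_, ?_, hsk _⟩
        · intro n
          rw [bs_snoc_other]
          · exact hl.gd n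
          · intro j hj
            have := vq_inj π hj
            have := j.isLt
            omega
        · intro n b hc
          refine hl.fr n b (hdis _ _ _ ?_ hc)
          intro m hm hi
          omega
        · intro n b hc
          rw [List.mem_append, List.mem_singleton] at hc
          rcases hc with hc | hc
          · exact hl.fr' n b hc
          · obtain ⟨h4, h5⟩ := Prod.mk.inj hc
            have := vq_inj π h4
            rw [h5]
            congr 2
            omega
      · have h4 : i % 7 - 2 < 5 := by omega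
        have h5 : i = 7 * (i / 7) + 2 + (⟨i % 7 - 2, h4⟩ : Fin 5).val := by
          show i = 7 * (i / 7) + 2 + (i % 7 - 2)
          omega
        generalize hn : i / 7 = n at h5
        generalize (⟨i % 7 - 2, h4⟩ : Fin 5) = j at h5
        subst h5
        have hjl := j.isLt
        obtain ⟨a, ha⟩ := good5_ans (hl.gd n) j (bs_none.mpr he)
        refine ⟨a, ?_, ?_, ?_, hsk _⟩
        · intro n'
          by_cases hnn : n' = n
          · subst hnn
            rw [bs_snoc_self he]
            exact ha
          · rw [bs_snoc_other]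
            · exact hl.gd n'
            · intro j' hj'
              have := vq_inj π hj'
              have := j'.isLt
              omega
        · intro n' b hc
          refine hl.fr n' b (hdis _ _ _ ?_ hc)
          intro m hm hi
          omega
        · intro n' b hc
          refine hl.fr' n' b (hdis _ _ _ ?_ hc)
          intro m hm hi
          omega
  · push Not at h1
    refine ⟨decide (e ∈ std π), ?_, ?_, ?_, ?_⟩
    · intro n
      rw [bs_snoc_other fun j => h1 _]
      exact hl.gd n
    · intro n b hc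
      rw [List.mem_append, List.mem_singleton] at hc
      rcases hc with hc | hc
      · exact hl.fr n b hc
      · exact absurd (Prod.mk.inj hc).1.symm (h1 _)
    · intro n b hc
      rw [List.mem_append, List.mem_singleton] at hc
      rcases hc with hc | hc
      · exact hl.fr' n b hc
      · exact absurd (Prod.mk.inj hc).1.symm (h1 _)
    · intro e' b hc hv
      rw [List.mem_append, List.mem_singleton] at hc
      rcases hc with hc | hc
      · exact hl.sk e' b hc hv
      · obtain ⟨rfl, rfl⟩ := Prod.mk.inj hc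
        simp

theorem nonempty_place : Nonempty (Rl ≃ ℕ) := by
  have h1 : Infinite Rl := Infinite.of_injective c (fun a b hab => Rl.c.inj hab)
  have h2 : Countable Rl := by
    let f : Rl → ℕ ⊕ Bool := fun a => match a with
      | hub => Sum.inr true
      | cen => Sum.inr false
      | c i => Sum.inl i
    apply Function.Injective.countable (f := f)
    intro a b hab
    cases a <;> cases b <;> simp_all [f]
  obtain ⟨hd⟩ := nonempty_denumerable Rl
  exact ⟨Denumerable.eqv Rl⟩

theorem vl_even (x : ℕ → Bool) (K : ℕ) : vl x (2 * K) = valA (x (7 * K)) (x (7 * K + 1)) := by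
  unfold vl
  rw [if_pos (by omega)]
  have : 2 * K / 2 = K := by omega
  rw [this]

/-- the rule for sequences that are never too high -/
theorem RI_low {I : Set (ℕ → ℕ)} {z : ℕ → ℕ} (h6 : ∀ n, z n ≠ 6) :
    RI I z ↔ (∀ n, z n ≠ 0) ∧ z ∈ I := by
  constructor
  · rintro (⟨n, hn, _⟩ | ⟨h1, h2⟩)
    · exact absurd hn (h6 n)
    · exact ⟨fun n => (h1 n).1, h2⟩
  · rintro ⟨h1, h2⟩
    exact Or.inr ⟨fun n => ⟨h1 n, h6 n⟩, h2⟩

/-- the rule for sequences that are never too low -/
theorem RI_high {I : Set (ℕ → ℕ)} {z : ℕ → ℕ} (h0 : ∀ n, z n ≠ 0) (h : (∃ n, z n = 6) ∨ z ∈ I) :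
    RI I z := by
  classical
  by_cases hex : ∃ n, z n = 6
  · left
    refine ⟨Nat.find hex, Nat.find_spec hex, fun m hm => ⟨h0 m, Nat.find_min hex hm⟩⟩
  · rcases h with h | h
    · exact absurd h hex
    · push Not at hex
      exact Or.inr ⟨fun n => ⟨h0 n, hex n⟩, h⟩

/-- Seeker's strategies -/
theorem part_S (RP : S_rolepin) (σ : Hist → Pair)
    (hσ : ∀ l : Hist, (l.map Prod.fst).Nodup → ¬ As l (σ l)) (h : ℕ → Bool) :
    ∃ (ρ : ℕ → Pair × Bool) (z : ℕ → ℕ) (pol : Bool),
      (Function.Injective (fun n => (ρ n).1) ∧ ∀ n, (ρ n).1 = σ (hist ρ n)) ∧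
      (∀ K, z (2 * K) = if h K then 1 else 2) ∧
      ∀ I : Set (ℕ → ℕ), (z ∈ I ↔ pol = true) → ¬ WinRun (SI I) ρ := by
  classical
  obtain ⟨π⟩ := nonempty_place
  have hans := inv_step π h
  choose! τ hτ using hans
  obtain ⟨ρ, hρ, hρσ⟩ := both σ hσ τ
  have hTG : ∀ l, TG τ l → Inv π h l := by
    intro l hl
    induction hl with
    | nil => exact inv_nil π h
    | snoc l e h1 h2 ih => exact hτ l ih e (fun ⟨b, hc⟩ => h2 b hc)
  have hInv : ∀ n, Inv π h (hist ρ n) := fun n => hTG _ (hρ.tg n)
  have hInvA : ∀ t, ∃ n, ρ t ∈ hist ρ n := fun t =>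
    ⟨t + 1, by rw [mem_hist]; exact ⟨t, by omega, rfl⟩⟩
  -- the bits of the two extreme graphs
  have hl0 : ∀ i, bit π (Grn ρ) i = true ↔ ∃ t, ρ t = (vq π i, true) := fun i => bit_vq
  have hl1 : ∀ i, bit π (Upp ρ) i = false ↔ ∃ t, ρ t = (vq π i, false) := by
    intro i
    rw [← Bool.not_eq_true, bit_vq]
    constructor
    · intro hn
      by_contra hno
      apply hn
      by_cases hw : ∀ t, (ρ t).1 ≠ vq π i
      · exact Or.inr hw
      · push Not at hw
        obtain ⟨t, ht⟩ := hw
        left
        refine ⟨t, Prod.ext ht ?_⟩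
        cases hb : (ρ t).2 with
        | true => rfl
        | false => exact absurd ⟨t, Prod.ext ht hb⟩ hno
    · rintro ⟨t, ht⟩ (⟨t', ht'⟩ | hw)
      · have : t = t' := hρ.inj (by simp only [ht, ht'])
        subst this
        rw [ht] at ht'
        simp at ht'
      · exact hw t (by rw [ht])
  -- the final states of the blocks of five bits
  have hst : ∀ n, ∃ st : St5, Fin5 st ∧
      (∀ j, fl5 st j = bit π (Grn ρ) (7 * n + 2 + j.val)) ∧
      (∀ j, fh5 st j = bit π (Upp ρ) (7 * n + 2 + j.val)) ∧
      (∀ j, (∀ t, (ρ t).1 ≠ vq π (7 * n + 2 + j.val)) → st j = none) := by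
    intro n
    obtain ⟨T, hT⟩ := fin_time {j : Fin 5 | ∃ t, (ρ t).1 = vq π (7 * n + 2 + j.val)}
      (Set.toFinite _) (fun j t => (ρ t).1 = vq π (7 * n + 2 + j.val)) (fun j hj => hj)
    have hiff : ∀ j a, bs π (hist ρ T) n j = some a ↔ ∃ t, ρ t = (vq π (7 * n + 2 + j.val), a) := by
      intro j a
      constructor
      · intro hj
        obtain ⟨t, _, ht⟩ := (mem_hist _ _ _).mp (bs_some hj)
        exact ⟨t, ht⟩
      · rintro ⟨t, ht⟩
        cases hb : bs π (hist ρ T) n j with
        | none =>
          exfalso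
          rw [bs_none] at hb
          obtain ⟨t', ht', hk⟩ := hT j ⟨t, by rw [ht]⟩
          apply hb
          refine ⟨(ρ t').2, ?_⟩
          rw [mem_hist]
          exact ⟨t', ht', Prod.ext hk rfl⟩
        | some b =>
          obtain ⟨t', _, ht'⟩ := (mem_hist _ _ _).mp (bs_some hb)
          have : t = t' := hρ.inj (by simp only [ht, ht'])
          subst this
          rw [ht] at ht'
          rw [(Prod.mk.inj ht').2]
    refine ⟨bs π (hist ρ T) n, good5_final _ _ rfl ((hInv T).gd n), ?_, ?_, ?_⟩
    · intro j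
      rw [Bool.eq_iff_iff, hl0, ← hiff]
      unfold fl5
      cases bs π (hist ρ T) n j with
      | none => simp
      | some a => simp
    · intro j
      have h3 : (fh5 (bs π (hist ρ T) n) j = false ↔ bit π (Upp ρ) (7 * n + 2 + j.val) = false) := by
        rw [hl1, ← hiff]
        unfold fh5
        cases bs π (hist ρ T) n j with
        | none => simp
        | some a => simp
      cases h4 : fh5 (bs π (hist ρ T) n) j
      · exact (h3.mp h4).symm
      · cases h5 : bit π (Upp ρ) (7 * n + 2 + j.val)
        · rw [h3.mpr h5] at h4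
          exact absurd h4 (by simp)
        · rfl
    · intro j hj
      cases hb : bs π (hist ρ T) n j with
      | none => rfl
      | some a =>
        obtain ⟨t, ht⟩ := (hiff j a).mp hb
        exact absurd (by rw [ht]) (hj t)
  -- the blocks of two bits
  have hA0 : ∀ K, (bit π (Grn ρ) (7 * K) = true → h K = true) ∧
      (bit π (Grn ρ) (7 * K + 1) = true → h K = false) ∧
      (bit π (Upp ρ) (7 * K) = false → h K = false) ∧
      (bit π (Upp ρ) (7 * K + 1) = false → h K = true) := by
    intro K
    refine ⟨?_, ?_, ?_, ?_⟩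
    · intro hb
      obtain ⟨t, ht⟩ := (hl0 _).mp hb
      obtain ⟨n, hn⟩ := hInvA t
      rw [ht] at hn
      exact ((hInv n).fr K _ hn).symm
    · intro hb
      obtain ⟨t, ht⟩ := (hl0 _).mp hb
      obtain ⟨n, hn⟩ := hInvA t
      rw [ht] at hn
      have := (hInv n).fr' K _ hn
      cases hh : h K
      · rfl
      · rw [hh] at this
        simp at this
    · intro hb
      obtain ⟨t, ht⟩ := (hl1 _).mp hb
      obtain ⟨n, hn⟩ := hInvA t
      rw [ht] at hn
      exact ((hInv n).fr K _ hn).symm
    · intro hb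
      obtain ⟨t, ht⟩ := (hl1 _).mp hb
      obtain ⟨n, hn⟩ := hInvA t
      rw [ht] at hn
      have := (hInv n).fr' K _ hn
      cases hh : h K
      · rw [hh] at this
        simp at this
      · rfl
  have hwl : ∀ i, (∀ t, (ρ t).1 ≠ vq π i) → bit π (Grn ρ) i = false ∧ bit π (Upp ρ) i = true := by
    intro i hw
    constructor
    · rw [← Bool.not_eq_true]
      intro hb
      obtain ⟨t, ht⟩ := (hl0 i).mp hb
      exact hw t (by rw [ht])
    · rw [← Bool.not_eq_false]
      intro hb
      obtain ⟨t, ht⟩ := (hl1 i).mp hb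
      exact hw t (by rw [ht])
  -- the values
  have hv6 : ∀ n, vl (bit π (Grn ρ)) n ≠ 6 := by
    intro n
    rcases Nat.even_or_odd' n with ⟨K, rfl | rfl⟩
    · rw [vl_even]
      obtain ⟨h1, h2, _, _⟩ := hA0 K
      revert h1 h2
      generalize bit π (Grn ρ) (7 * K) = p
      generalize bit π (Grn ρ) (7 * K + 1) = q
      generalize h K = r
      revert p q r
      decide
    · rw [vl_blk]
      obtain ⟨st, h1, h2, _⟩ := hst K
      have : (fun j : Fin 5 => bit π (Grn ρ) (7 * K + 2 + j.val)) = fl5 st :=
        funext fun j => (h2 j).symm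
      rw [this]
      exact h1.1
  have hv0 : ∀ n, vl (bit π (Upp ρ)) n ≠ 0 := by
    intro n
    rcases Nat.even_or_odd' n with ⟨K, rfl | rfl⟩
    · rw [vl_even]
      obtain ⟨_, _, h1, h2⟩ := hA0 K
      revert h1 h2
      generalize bit π (Upp ρ) (7 * K) = p
      generalize bit π (Upp ρ) (7 * K + 1) = q
      generalize h K = r
      revert p q r
      decide
    · rw [vl_blk]
      obtain ⟨st, h1, _, h2, _⟩ := hst K
      have : (fun j : Fin 5 => bit π (Upp ρ) (7 * K + 2 + j.val)) = fh5 st :=
        funext fun j => (h2 j).symm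
      rw [this]
      exact h1.2.1
  have hsub : Grn ρ ⊆ Upp ρ := fun e he => Or.inl he
  have hle : ∀ n, le3 (vl (bit π (Grn ρ)) n) (vl (bit π (Upp ρ)) n) :=
    vl_mono (bit_mono hsub)
  have hwhite : ∀ i, (∀ t, (ρ t).1 ≠ vq π i) →
      ∃ n, vl (bit π (Grn ρ)) n ≠ vl (bit π (Upp ρ)) n := by
    intro i hw
    by_cases h2 : i % 7 = 0
    · refine ⟨2 * (i / 7), ?_⟩
      rw [vl_even, vl_even]
      have h3 : i = 7 * (i / 7) := by omega
      rw [h3] at hw
      obtain ⟨k1, k2, k3, k4⟩ := hA0 (i / 7)
      obtain ⟨k5, k6⟩ := hwl _ hw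
      revert k1 k2 k3 k4 k5 k6
      generalize bit π (Upp ρ) (7 * (i / 7)) = p
      generalize bit π (Upp ρ) (7 * (i / 7) + 1) = q
      generalize bit π (Grn ρ) (7 * (i / 7)) = p'
      generalize bit π (Grn ρ) (7 * (i / 7) + 1) = q'
      generalize h (i / 7) = r
      revert p q p' q' r
      decide
    · by_cases h3 : i % 7 = 1
      · refine ⟨2 * (i / 7), ?_⟩
        rw [vl_even, vl_even]
        have h4 : i = 7 * (i / 7) + 1 := by omega
        rw [h4] at hw
        obtain ⟨k1, k2, k3, k4⟩ := hA0 (i / 7)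
        have e7 : (7 * (i / 7) + 1) / 7 = i / 7 := by omega
        obtain ⟨k5, k6⟩ := hwl _ hw
        revert k1 k2 k3 k4 k5 k6
        generalize bit π (Upp ρ) (7 * (i / 7)) = p
        generalize bit π (Upp ρ) (7 * (i / 7) + 1) = q
        generalize bit π (Grn ρ) (7 * (i / 7)) = p'
        generalize bit π (Grn ρ) (7 * (i / 7) + 1) = q'
        generalize h (i / 7) = r
        revert p q p' q' r
        decide
      · have h4 : i % 7 - 2 < 5 := by omega
        have h5 : i = 7 * (i / 7) + 2 + (⟨i % 7 - 2, h4⟩ : Fin 5).val := by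
          show i = 7 * (i / 7) + 2 + (i % 7 - 2)
          omega
        generalize hn : i / 7 = K at h5
        generalize (⟨i % 7 - 2, h4⟩ : Fin 5) = j at h5
        subst h5
        refine ⟨2 * K + 1, ?_⟩
        rw [vl_blk, vl_blk]
        obtain ⟨st, k1, k2, k3, k4⟩ := hst K
        have e1 : (fun j : Fin 5 => bit π (Upp ρ) (7 * K + 2 + j.val)) = fh5 st :=
          funext fun j => (k3 j).symm
        have e2 : (fun j : Fin 5 => bit π (Grn ρ) (7 * K + 2 + j.val)) = fl5 st :=
          funext fun j => (k2 j).symm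
        rw [e1, e2]
        exact k1.2.2 ⟨j, k4 j hw⟩
  -- the even values
  have hev0 : ∀ K, vl (bit π (Grn ρ)) (2 * K) ≠ 0 →
      vl (bit π (Grn ρ)) (2 * K) = if h K then 1 else 2 := by
    intro K
    rw [vl_even]
    obtain ⟨h1, h2, _, _⟩ := hA0 K
    revert h1 h2
    generalize bit π (Grn ρ) (7 * K) = p
    generalize bit π (Grn ρ) (7 * K + 1) = q
    generalize h K = r
    revert p q r
    decide
  have hev1 : ∀ K, vl (bit π (Upp ρ)) (2 * K) ≠ 6 →
      vl (bit π (Upp ρ)) (2 * K) = if h K then 1 else 2 := by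
    intro K
    rw [vl_even]
    obtain ⟨_, _, h1, h2⟩ := hA0 K
    revert h1 h2
    generalize bit π (Upp ρ) (7 * K) = p
    generalize bit π (Upp ρ) (7 * K + 1) = q
    generalize h K = r
    revert p q r
    decide
  -- the fixed pairs
  have hns : ¬ surp π (Grn ρ) := by
    rintro ⟨a, b, ⟨hab, t, ht⟩, hno⟩
    apply hno
    by_cases hv : ∃ i, pr (π a) (π b) hab = vq π i
    · obtain ⟨i, hi⟩ := hv
      unfold vq at hi
      rw [pr_eq] at hi
      right
      refine ⟨i, ?_⟩
      rcases hi with ⟨k1, k2⟩ | ⟨k1, k2⟩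
      · exact Or.inl ⟨π.injective k1, π.injective k2⟩
      · exact Or.inr ⟨π.injective k1, π.injective k2⟩
    · push Not at hv
      left
      obtain ⟨n, hn⟩ := hInvA t
      rw [ht] at hn
      obtain ⟨a', b', hA, hne, he⟩ := ((hInv n).sk _ _ hn hv).mp rfl
      rw [pr_eq] at he
      rcases he with ⟨k1, k2⟩ | ⟨k1, k2⟩
      · rw [π.injective k1, π.injective k2]
        exact hA
      · rw [π.injective k1, π.injective k2]
        exact Amin_symm hA
  have Amin_irr : ∀ a, ¬ Amin a a := by
    intro a ha
    cases a with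
    | hub => exact ha
    | cen => exact ha
    | c n =>
      have h1 : C n n := ha
      have h2 : Cb n n := by
        rcases h1 with h1 | h1 <;> exact h1
      obtain ⟨k, hk, h3 | ⟨h3, h4⟩⟩ := h2
      · omega
      · have h5 := hk_le k
        have h6 : k < 2 ^ k := Nat.lt_two_pow_self
        have h7 : 2 ^ (k + 1) = 2 * 2 ^ k := by rw [pow_succ]; ring
        omega
  have hnv : ∀ a b, Amin a b → ∀ hne : π a ≠ π b, ∀ i, pr (π a) (π b) hne ≠ vq π i := by
    intro a b hab hne i hi
    unfold vq at hi
    rw [pr_eq] at hi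
    rcases hi with ⟨k1, k2⟩ | ⟨k1, k2⟩
    · rw [π.injective k1, π.injective k2] at hab
      exact vs_not_gr i hab
    · rw [π.injective k1, π.injective k2] at hab
      exact vs_not_gr i hab
  have hfull : full π (Upp ρ) := by
    intro a b hab
    have hne : π a ≠ π b := by
      intro hc
      rw [π.injective hc] at hab
      exact Amin_irr b hab
    refine ⟨hne, ?_⟩
    by_cases hw : ∀ t, (ρ t).1 ≠ pr (π a) (π b) hne
    · exact Or.inr hw
    · push Not at hw
      obtain ⟨t, ht⟩ := hw
      left
      refine ⟨t, Prod.ext ht ?_⟩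
      obtain ⟨n, hn⟩ := hInvA t
      have h3 : ρ t = (pr (π a) (π b) hne, (ρ t).2) := Prod.ext ht rfl
      rw [h3] at hn
      exact ((hInv n).sk _ _ hn (hnv a b hab hne)).mpr ⟨a, b, hab, hne, rfl⟩
  have hrun : Function.Injective (fun n => (ρ n).1) ∧ ∀ n, (ρ n).1 = σ (hist ρ n) :=
    ⟨hρ.inj, hρσ⟩
  -- the two cases
  by_cases hcase : (∃ n, vl (bit π (Grn ρ)) n = 0) ∨ ¬ full π (Grn ρ)
  · have hlow : ∀ I, Grn ρ ∉ SI I := by
      intro I hI
      rw [mem_SI RP hns, RI_low hv6] at hI
      rcases hcase with ⟨n, hn⟩ | hf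
      · exact hI.2.1 n hn
      · exact hf hI.1
    by_cases hup : (∃ n, vl (bit π (Upp ρ)) n = 6) ∨ surp π (Upp ρ)
    · refine ⟨ρ, fun n => if n % 2 = 0 then (if h (n / 2) then 1 else 2) else 1, true, hrun, ?_, ?_⟩
      · intro K
        simp only
        rw [if_pos (by omega)]
        have : 2 * K / 2 = K := by omega
        rw [this]
      · intro I _ hW
        rw [win_iff hρ hW.1] at hW
        rcases hW with hW | hW
        · exact hlow I hW
        · apply hW
          rcases hup with hup | hup
          · exact ⟨π, full_near hfull, Or.inr ⟨hfull, RI_high hv0 (Or.inl hup)⟩⟩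
          · exact surp_mem (full_near hfull) hup I
    · push Not at hup
      refine ⟨ρ, vl (bit π (Upp ρ)), true, hrun, fun K => hev1 K (hup.1 _), ?_⟩
      intro I hz hW
      rw [win_iff hρ hW.1] at hW
      rcases hW with hW | hW
      · exact hlow I hW
      · exact hW ⟨π, full_near hfull, Or.inr ⟨hfull, RI_high hv0 (Or.inr (hz.mpr rfl))⟩⟩
  · push Not at hcase
    refine ⟨ρ, vl (bit π (Grn ρ)), false, hrun, fun K => hev0 K (hcase.1 _), ?_⟩
    intro I hz hW
    have hzI : vl (bit π (Grn ρ)) ∉ I := fun hc => by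
      have := hz.mp hc
      simp at this
    obtain ⟨e, he⟩ := hW.1
    rw [win_iff hρ hW.1] at hW
    rcases hW with hW | hW
    · rw [mem_SI RP hns, RI_low hv6] at hW
      exact hzI hW.2.2
    · apply hW
      by_cases hv : ∃ i, e = vq π i
      · obtain ⟨i, rfl⟩ := hv
        obtain ⟨n, hn⟩ := hwhite i he
        refine ⟨π, full_near hfull, Or.inr ⟨hfull, RI_high hv0 (Or.inl ⟨n, ?_⟩)⟩⟩
        rcases hle n with h1 | h1 | h1
        · exact absurd h1 hn
        · exact absurd h1 (hcase.1 n)
        · exact h1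
      · push Not at hv
        apply surp_mem (full_near hfull)
        obtain ⟨u, v, huv, rfl⟩ := pr_cases e
        have e1 : π (π.symm u) = u := Equiv.apply_symm_apply _ _
        have e2 : π (π.symm v) = v := Equiv.apply_symm_apply _ _
        refine ⟨π.symm u, π.symm v, ?_, ?_⟩
        · rw [e1, e2]
          exact ⟨huv, Or.inr he⟩
        · rintro (hA | ⟨i, hA | hA⟩)
          · obtain ⟨k1, t, ht⟩ := hcase.2 _ _ hA
            apply he t
            rw [ht]
            show pr _ _ k1 = _
            rw [pr_eq]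
            exact Or.inl ⟨e1, e2⟩
          · apply hv i
            unfold vq
            rw [pr_eq]
            left
            rw [← hA.1, ← hA.2]
            exact ⟨e1.symm, e2.symm⟩
          · apply hv i
            unfold vq
            rw [pr_eq]
            right
            rw [← hA.1, ← hA.2]
            exact ⟨e1.symm, e2.symm⟩

end Pool.Agent.Q215.Mo
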