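import Mathlib
import Pool.Agent.Q215.Mo.Sig
import Pool.Agent.Q215.ElusI
import Pool.Agent.Q199.MO.Role
import Pool.Agent.Q95.MO.Deg
import Pool.Agent.Q95.MO.Cyc

set_option autoImplicit false

/-! The set of sequences for which the game of the monotone property is not determined. -/

namespace Pool.Agent.Q215.Mo

open Pool.Agent.Q215.Elus (Pair Hist hist TG Run Cs As WinRun select)
open Cardinal

theorem the_deg : S_deg2 := Pool.Agent.Q95.MO.s_deg2
theorem the_cyc : S_cycpin := Pool.Agent.Q95.MO.s_cycpin the_deg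
theorem the_role : S_rolepin := Pool.Agent.Q199.MO.s_rolepin the_deg the_cyc

/-- the undetermined property -/
theorem exists_I : ∃ I : Set (ℕ → ℕ),
    (∀ σ : Hist → Pair, (∀ l : Hist, (l.map Prod.fst).Nodup → ¬ As l (σ l)) →
      ∃ ρ : ℕ → Pair × Bool, Function.Injective (fun n => (ρ n).1) ∧
        (∀ n, (ρ n).1 = σ (hist ρ n)) ∧ ¬ WinRun (SI I) ρ) ∧
    ∀ τ : Hist → Pair → Bool, ∃ ρ, Run τ ρ ∧ WinRun (SI I) ρ := by
  classical
  let Sk : Type := {σ : Hist → Pair // ∀ l : Hist, (l.map Prod.fst).Nodup → ¬ As l (σ l)}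
  let T : Type := Hist → Pair → Bool
  let B : Type := ℕ → Bool
  have hS : ∀ (σ : Sk) (h : B), ∃ (ρ : ℕ → Pair × Bool) (z : ℕ → ℕ) (pol : Bool),
      (Function.Injective (fun n => (ρ n).1) ∧ ∀ n, (ρ n).1 = σ.1 (hist ρ n)) ∧
      (∀ K, z (2 * K) = if h K then 1 else 2) ∧
      ∀ I : Set (ℕ → ℕ), (z ∈ I ↔ pol = true) → ¬ WinRun (SI I) ρ :=
    fun σ h => part_S the_role σ.1 σ.2 h
  choose ρS z1 pol hρS hz1 hwS using hS
  have hT : ∀ τ : T, ∃ (R : B → ℕ → Pair × Bool) (W : B → Set (ℕ → ℕ)),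
      (∀ b, (W b).Countable) ∧ (∀ z, {b | z ∈ W b}.Countable) ∧
      ∀ b, Run τ (R b) ∧ ∀ I, Disjoint I (W b) → WinRun (SI I) (R b) := by
    intro τ
    rcases part_T the_role the_deg the_cyc τ with ⟨ρ, hρ, hI⟩ | ⟨R, zz, hinj, hR⟩
    · refine ⟨fun _ => ρ, fun _ => ∅, fun _ => Set.countable_empty, fun z => ?_,
        fun b => ⟨hρ, fun I _ => hI I⟩⟩
      have : {b : B | z ∈ (∅ : Set (ℕ → ℕ))} = ∅ := by
        ext b
        simp
      rw [this]
      exact Set.countable_empty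
    · refine ⟨R, fun b => {zz b}, fun _ => Set.countable_singleton _, fun z => ?_,
        fun b => ⟨(hR b).1, fun I hI => (hR b).2 I (Set.disjoint_singleton_right.mp hI)⟩⟩
      apply Set.Subsingleton.countable
      intro b hb b' hb'
      exact hinj ((Set.mem_singleton_iff.mp hb).symm.trans (Set.mem_singleton_iff.mp hb'))
  choose R W hW1 hW2 hR using hT
  have hHist : #Hist ≤ ℵ₀ := mk_le_aleph0
  have hHP : #(Hist × Pair) ≤ ℵ₀ := mk_le_aleph0
  have hcardS : #(Hist → Pair) ≤ 𝔠 := by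
    rw [← power_def]
    calc #Pair ^ #Hist ≤ ℵ₀ ^ #Hist := power_le_power_right mk_le_aleph0
      _ ≤ ℵ₀ ^ ℵ₀ := power_le_power_left aleph0_ne_zero hHist
      _ = 𝔠 := aleph0_power_aleph0
  have hcardT : #T ≤ 𝔠 := by
    have e : T ≃ (Hist × Pair → Bool) := (Equiv.curry _ _ _).symm
    rw [e.cardinal_eq, ← power_def, mk_bool]
    calc (2 : Cardinal) ^ #(Hist × Pair) ≤ 2 ^ ℵ₀ := power_le_power_left two_ne_zero hHP
      _ = 𝔠 := two_power_aleph0
  have hΘ : #(Sk ⊕ T) ≤ 𝔠 := by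
    rw [mk_sum, lift_id, lift_id]
    have h1 : #Sk ≤ 𝔠 := (mk_subtype_le _).trans hcardS
    calc #Sk + #T ≤ 𝔠 + 𝔠 := add_le_add h1 hcardT
      _ = 𝔠 := continuum_add_self
  have hB : #B = 𝔠 := by
    show #(ℕ → Bool) = 𝔠
    rw [← power_def, mk_bool, mk_nat, two_power_aleph0]
  let U : Sk ⊕ T → B → Set (ℕ → ℕ) := fun θ b => match θ with
    | Sum.inl σ => {z1 σ b}
    | Sum.inr τ => W τ b
  obtain ⟨f, hf⟩ := select hΘ hB U (by
    intro θ b
    rcases θ with σ | τ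
    · exact Set.countable_singleton _
    · exact hW1 τ b) (by
    intro θ z
    rcases θ with σ | τ
    · apply Set.Subsingleton.countable
      intro b hb b' hb'
      have h1 : z = z1 σ b := hb
      have h2 : z = z1 σ b' := hb'
      funext K
      have h3 := hz1 σ b K
      have h4 := hz1 σ b' K
      rw [← h1] at h3
      rw [← h2, h3] at h4
      cases hbK : b K <;> cases hbK' : b' K <;> rw [hbK, hbK'] at h4 <;> simp at h4
    · exact hW2 τ z)
  refine ⟨{z | ∃ σ, pol σ (f (Sum.inl σ)) = true ∧ z = z1 σ (f (Sum.inl σ))}, ?_, ?_⟩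
  · intro σ hσ
    let σ' : Sk := ⟨σ, hσ⟩
    refine ⟨ρS σ' (f (Sum.inl σ')), (hρS _ _).1, (hρS _ _).2, hwS _ _ _ ?_⟩
    constructor
    · rintro ⟨σ'', hp, h⟩
      by_cases he : σ'' = σ'
      · rw [← he]
        exact hp
      · exfalso
        have h1 := hf (Sum.inl σ') (Sum.inl σ'') (fun k => he (Sum.inl.inj k).symm)
        rw [Set.disjoint_left] at h1
        exact h1 (a := z1 σ' (f (Sum.inl σ'))) rfl h
    · intro hp
      exact ⟨σ', hp, rfl⟩
  · intro τ
    refine ⟨R τ (f (Sum.inr τ)), (hR _ _).1, (hR _ _).2 _ ?_⟩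
    rw [Set.disjoint_left]
    rintro z ⟨σ, _, rfl⟩ hz
    have h1 := hf (Sum.inl σ) (Sum.inr τ) (by simp)
    rw [Set.disjoint_left] at h1
    exact h1 (a := z1 σ (f (Sum.inl σ))) rfl hz

end Pool.Agent.Q215.Mo
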